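import Pool.Agent.H462Z.MD.Metric

set_option autoImplicit false

namespace Pool.Agent.H462Z.MD

open Set Filter Topology
open scoped BigOperators ENNReal

theorem limsup_zero (a : ℕ → ℕ) (N : ℕ → ℕ) (hN : ∀ᶠ n in atTop, N n ≠ 0)
    (h : ∀ δ : ℝ, 0 < δ → ∀ᶠ n in atTop, (a n : ℝ) ≤ δ * N n) :
    Tendsto (fun n : ℕ => (a n : ℝ≥0∞) / (N n : ℝ≥0∞)) atTop (𝓝 0) := by
  rw [ENNReal.tendsto_nhds_zero]
  intro ε hε
  rcases eq_or_ne ε ⊤ with rfl | hε'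
  · simp
  filter_upwards [h ε.toReal (ENNReal.toReal_pos hε.ne' hε'), hN] with n h1 h2
  rw [ENNReal.div_le_iff (by exact_mod_cast h2) (by simp), ← ENNReal.ofReal_toReal hε',
    ← ENNReal.ofReal_natCast, ← ENNReal.ofReal_natCast (N n),
    ← ENNReal.ofReal_mul ENNReal.toReal_nonneg]
  exact ENNReal.ofReal_le_ofReal h1

theorem ratio_ge (S : ℝ → ℝ≥0∞) {c : ℝ} (hc : 0 ≤ c)
    (h : ∀ᶠ ε : ℝ in 𝓝[>] 0, ENNReal.ofReal (c * Real.log (1 / ε)) ≤ S ε) :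
    ∀ᶠ ε : ℝ in 𝓝[>] 0, ENNReal.ofReal c ≤ S ε / ENNReal.ofReal (Real.log (1 / ε)) := by
  filter_upwards [h, Ioo_mem_nhdsGT (show (0 : ℝ) < 1 by norm_num)] with ε h1 h2
  have h3 : 0 < Real.log (1 / ε) := Real.log_pos ((one_lt_div h2.1).2 h2.2)
  rw [ENNReal.le_div_iff_mul_le (Or.inl (ENNReal.ofReal_pos.2 h3).ne')
    (Or.inl ENNReal.ofReal_ne_top), ← ENNReal.ofReal_mul hc]
  exact h1

theorem mdim_zero (α : Finset (Set XS))
    (hα : (∀ U ∈ α, IsOpen U) ∧ ⋃₀ (α : Set (Set XS)) = Set.univ) :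
    Tendsto (fun n : ℕ =>
      (((sInf {k : ℕ | ∃ β : Finset (Set XS), (∀ V ∈ β, IsOpen V) ∧
          ⋃₀ (β : Set (Set XS)) = Set.univ ∧
          (∀ V ∈ β, ∀ i < n, ∃ U ∈ α, V ⊆ (⇑TT)^[i] ⁻¹' U) ∧
          ∀ x : XS, Set.ncard {V | V ∈ β ∧ x ∈ V} ≤ k + 1} : ℕ) : ℝ≥0∞) / (n : ℝ≥0∞)))
      atTop (𝓝 0) := by
  classical
  refine limsup_zero _ (fun n => n) (eventually_ne_atTop 0) fun δ hδ => ?_
  filter_upwards [zero_cover α hα.1 (fun x => by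
    simpa using Set.sUnion_eq_univ_iff.1 hα.2 x) hδ] with n hn
  obtain ⟨β, h1, h2, h3, k, hk, h4⟩ := hn
  refine le_trans (Nat.cast_le.2 (Nat.sInf_le ?_)) hk
  refine ⟨β, h1, Set.sUnion_eq_univ_iff.2 fun x => by simpa using h2 x, fun V hV i hi => ?_,
    fun x => ?_⟩
  · obtain ⟨U, hU, h5⟩ := h3 V hV i hi
    exact ⟨U, hU, fun x hx => by rw [mem_preimage, TT_iter]; exact h5 x hx⟩
  · have : {V | V ∈ β ∧ x ∈ V} = (β.filter fun V => x ∈ V : Finset (Set XS)) := by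
      ext V; simp
    rw [this, Set.ncard_coe_finset]
    exact h4 x _ (Finset.filter_subset _ _) fun V hV => (Finset.mem_filter.1 hV).2

theorem cover_ge {d : XS → XS → ℝ} (hd : Compat d) : ∀ᶠ ε : ℝ in 𝓝[>] 0, ∀ᶠ n : ℕ in atTop,
    ENNReal.ofReal (1 / 2 ^ 24 * Real.log (1 / ε)) ≤
      ENNReal.ofReal (Real.log ((sInf {k : ℕ | ∃ F : Finset (Set XS), F.card = k ∧
        ⋃₀ (F : Set (Set XS)) = Set.univ ∧
        ∀ A ∈ F, ∀ x ∈ A, ∀ y ∈ A, ∀ i < n,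
          d ((⇑TT)^[i] x) ((⇑TT)^[i] y) < ε} : ℕ) : ℝ) / (n : ℝ)) := by
  filter_upwards [key_metric hd, self_mem_nhdsWithin] with ε h hε
  filter_upwards [eventually_ge_atTop 128] with n hn
  refine ENNReal.ofReal_le_ofReal ?_
  obtain ⟨F, -, h1, h2⟩ := hd.cover (Finset.range n) (fun i => (⇑TT)^[i])
    (fun i => TT.continuous.iterate i) hε
  obtain ⟨F', h3, h4, h5⟩ := Nat.sInf_mem (s := {k : ℕ | ∃ F : Finset (Set XS), F.card = k ∧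
        ⋃₀ (F : Set (Set XS)) = Set.univ ∧
        ∀ A ∈ F, ∀ x ∈ A, ∀ y ∈ A, ∀ i < n, d ((⇑TT)^[i] x) ((⇑TT)^[i] y) < ε})
    ⟨F.card, F, rfl, Set.sUnion_eq_univ_iff.2 fun x => by simpa using h1 x,
      fun A hA x hx y hy i hi => h2 A hA x hx y hy i (Finset.mem_range.2 hi)⟩
  rw [← h3, le_div_iff₀ (by exact_mod_cast (by omega : 0 < n)), mul_comm]
  refine h n hn F' (fun x => by simpa using Set.sUnion_eq_univ_iff.1 h4 x)
    fun A hA x hx y hy i hi => ?_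
  rw [← TT_iter, ← TT_iter]
  exact (h5 A hA x hx y hy i hi).le

end Pool.Agent.H462Z.MD
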