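import Pool.Agent.H462Z.MD.Gen

set_option autoImplicit false

namespace Pool.Agent.H462Z.MD

open Set Filter Topology
open scoped BigOperators ComplexConjugate

variable {p : ℕ}

/-- the standard character -/
noncomputable def ch [NeZero p] (t : ZMod p) : ℂ := ZMod.stdAddChar t

theorem ch_add [NeZero p] (s t : ZMod p) : ch (s + t) = ch s * ch t :=
  AddChar.map_add_eq_mul _ _ _

theorem ch_zero [NeZero p] : ch (0 : ZMod p) = 1 := AddChar.map_zero_eq_one _

theorem norm_ch [NeZero p] (t : ZMod p) : ‖ch t‖ = 1 := by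
  unfold ch
  rw [ZMod.stdAddChar_apply]
  exact Circle.norm_coe _

theorem conj_ch [NeZero p] (t : ZMod p) : conj (ch t) = ch (-t) := by
  have h1 : ch (-t) * ch t = 1 := by rw [← ch_add, neg_add_cancel, ch_zero]
  have h2 : conj (ch t) * ch t = 1 := by
    rw [mul_comm, Complex.mul_conj, Complex.normSq_eq_norm_sq, norm_ch]; simp
  have h3 : ch t ≠ 0 := fun h => by rw [h, mul_zero] at h1; exact zero_ne_one h1
  exact mul_right_cancel₀ h3 (h2.trans h1.symm)

theorem ch_pow [NeZero p] (t : ZMod p) : ch t ^ p = 1 := by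
  unfold ch
  rw [← AddChar.map_nsmul_eq_pow, nsmul_eq_mul, ZMod.natCast_self, zero_mul,
    AddChar.map_zero_eq_one]

theorem sum_ch [NeZero p] (b : ZMod p) : ∑ x : ZMod p, ch (b * x) = if b = 0 then (p : ℂ) else 0 := by
  have := AddChar.sum_mulShift b (ZMod.isPrimitive_stdAddChar p)
  simp only [ZMod.card] at this
  simp only [ch, mul_comm b, this]
  split_ifs <;> simp

theorem parseval [NeZero p] (c : ZMod p → ℂ) :
    ∑ l, ‖∑ k, c k * ch (k * l)‖ ^ 2 = p * ∑ k, ‖c k‖ ^ 2 := by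
  have h : ∀ l, (((‖∑ k, c k * ch (k * l)‖ ^ 2 : ℝ)) : ℂ) =
      ∑ k, ∑ k', c k * conj (c k') * ch ((k - k') * l) := by
    intro l
    rw [← Complex.normSq_eq_norm_sq, ← Complex.mul_conj, map_sum, Finset.sum_mul_sum]
    refine Finset.sum_congr rfl fun k _ => Finset.sum_congr rfl fun k' _ => ?_
    rw [map_mul, conj_ch, sub_mul, sub_eq_add_neg, ch_add]
    ring
  apply Complex.ofReal_injective
  push_cast
  have h' : ∀ l, ((‖∑ k, c k * ch (k * l)‖ : ℂ)) ^ 2 =
      ∑ k, ∑ k', c k * conj (c k') * ch ((k - k') * l) := by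
    intro l
    rw [← h l]
    push_cast
    rfl
  simp only [h']
  rw [Finset.sum_comm, Finset.mul_sum]
  refine Finset.sum_congr rfl fun k _ => ?_
  rw [Finset.sum_comm]
  simp only [← Finset.mul_sum, sum_ch, sub_eq_zero]
  rw [Finset.sum_eq_single k]
  · rw [if_pos rfl, Complex.mul_conj, Complex.normSq_eq_norm_sq]
    push_cast
    ring
  · intro b _ hb
    rw [if_neg (Ne.symm hb), mul_zero]
  · simp

/-- normalised discrete Fourier transform -/
noncomputable def hat [NeZero p] (v : ZMod p → ℝ) (k : ZMod p) : ℂ :=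
  (∑ l, (v l : ℂ) * ch (l * -k)) / p

theorem continuous_hat [NeZero p] (k : ZMod p) : Continuous fun v : ZMod p → ℝ => hat v k := by
  unfold hat; fun_prop

theorem hat_sg [NeZero p] (v : ZMod p → ℝ) (k : ZMod p) : hat (sg v) k = hat v k * ch k := by
  unfold hat sg
  rw [div_mul_eq_mul_div, Finset.sum_mul, ← sum_sg (fun l => (v l : ℂ) * ch (l * -k) * ch k)]
  congr 1
  refine Finset.sum_congr rfl fun l _ => ?_
  rw [mul_assoc, ← ch_add]
  congr 2
  ring

theorem hat_sub [NeZero p] (v w : ZMod p → ℝ) (k : ZMod p) :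
    hat (v - w) k = hat v k - hat w k := by
  unfold hat
  rw [← sub_div, ← Finset.sum_sub_distrib]
  congr 1
  refine Finset.sum_congr rfl fun l _ => ?_
  simp [sub_mul]

theorem hat_zero [NeZero p] {v : ZMod p → ℝ} (h : ∑ l, v l = 0) : hat v 0 = 0 := by
  unfold hat
  simp only [neg_zero, mul_zero, ch_zero, mul_one]
  rw [← Complex.ofReal_sum, h]
  simp

theorem sum_hat [NeZero p] (v : ZMod p → ℝ) : ∑ k, ‖hat v k‖ ^ 2 = (∑ l, v l ^ 2) / p := by
  have hp : (0 : ℝ) < p := by exact_mod_cast NeZero.pos p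
  have h1 := parseval (fun l => (v l : ℂ))
  rw [← Equiv.sum_comp (Equiv.neg (ZMod p))] at h1
  simp only [Equiv.neg_apply, Complex.norm_real, Real.norm_eq_abs, sq_abs] at h1
  simp only [hat, norm_div, Complex.norm_natCast, div_pow]
  rw [← Finset.sum_div, h1]
  field_simp

/-- Fourier multiplier followed by the real part -/
noncomputable def mult [NeZero p] (z : ZMod p → ℂ) (v : ZMod p → ℝ) : ZMod p → ℝ :=
  fun l => (∑ k, z k * hat v k * ch (k * l)).re

theorem mult_sg [NeZero p] (z : ZMod p → ℂ) (v : ZMod p → ℝ) : mult z (sg v) = sg (mult z v) := by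
  funext l
  simp only [mult, sg, hat_sg]
  congr 1
  refine Finset.sum_congr rfl fun k _ => ?_
  rw [mul_add, mul_one, ch_add]
  ring

theorem sum_mult [NeZero p] (z : ZMod p → ℂ) {v : ZMod p → ℝ} (h : hat v 0 = 0) :
    ∑ l, mult z v l = 0 := by
  unfold mult
  rw [← Complex.re_sum, Finset.sum_comm]
  simp only [← Finset.mul_sum, sum_ch]
  rw [Finset.sum_eq_zero]
  · simp
  · intro k _
    split_ifs with hk
    · rw [hk, h]; simp
    · simp

theorem mult_sub [NeZero p] (z : ZMod p → ℂ) (v w : ZMod p → ℝ) (l : ZMod p) :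
    mult z (v - w) l = mult z v l - mult z w l := by
  simp only [mult, hat_sub]
  rw [← Complex.sub_re, ← Finset.sum_sub_distrib]
  congr 1
  refine Finset.sum_congr rfl fun k _ => ?_
  ring

theorem sum_sq_mult [NeZero p] (z : ZMod p → ℂ) (v : ZMod p → ℝ) :
    ∑ l, mult z v l ^ 2 ≤ p * ∑ k, ‖z k‖ ^ 2 * ‖hat v k‖ ^ 2 := by
  have h := parseval (fun k => z k * hat v k)
  simp only [norm_mul, mul_pow] at h
  rw [← h]
  refine Finset.sum_le_sum fun l _ => ?_
  rw [← sq_abs]
  exact pow_le_pow_left₀ (abs_nonneg _) (Complex.abs_re_le_norm _) 2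

theorem re_or_im [NeZero p] (hp : Odd p) {z : ℂ} (hz : z ≠ 0) (k : ZMod p) :
    (∀ l, (z * ch (k * l)).re ≠ 0) ∨ ∀ l, (Complex.I * z * ch (k * l)).re ≠ 0 := by
  by_contra hc
  push Not at hc
  obtain ⟨⟨a, ha⟩, ⟨b, hb⟩⟩ := hc
  have key : ∀ w : ℂ, w.re = 0 → w ^ 2 = -((‖w‖ ^ 2 : ℝ) : ℂ) := by
    intro w hw
    rw [← Complex.normSq_eq_norm_sq, Complex.normSq_apply]
    apply Complex.ext <;> simp [pow_two, hw]
  have h1 := key _ ha
  have h2 := key _ hb
  simp only [norm_mul, norm_ch, Complex.norm_I, mul_one, one_mul, mul_pow, Complex.I_sq] at h1 h2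
  have h3 : z ^ 2 * (ch (k * a) ^ 2 + ch (k * b) ^ 2) = 0 := by linear_combination h1 - h2
  have h4 : ch (k * a) ^ 2 = -ch (k * b) ^ 2 := by
    rcases mul_eq_zero.1 h3 with h | h
    · exact absurd (pow_eq_zero_iff two_ne_zero |>.1 h) hz
    · linear_combination h
  have h5 := congrArg (· ^ p) h4
  simp only [hp.neg_pow, ← pow_mul, mul_comm 2 p] at h5
  simp only [pow_mul, ch_pow] at h5
  norm_num at h5

/-- vectors with a few large Fourier coefficients -/
theorem gen_four [Fact p.Prime] (hp : Odd p) (L : ℕ) {τ : ℝ} (hτ : 0 < τ) :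
    Gen {v : ZMod p → ℝ | hat v 0 = 0 ∧ (∃ k, 2 * τ < ‖hat v k‖ ^ 2) ∧
      ∃ S : Finset (ZMod p), S.card ≤ L ∧ ∀ k, τ < ‖hat v k‖ ^ 2 → k ∈ S} (2 * (L + 1)) := by
  classical
  let t : Fin (L + 1) → ℝ := fun k => τ + τ / (1 + (k : ℕ))
  have hpos : ∀ k : Fin (L + 1), (0 : ℝ) < 1 + (k : ℕ) := fun k => by positivity
  have ht0 : ∀ k, τ < t k := fun k => lt_add_of_pos_right _ (div_pos hτ (hpos k))
  have ht1 : ∀ k, t k ≤ 2 * τ := fun k => by
    have h1 : τ / (1 + (k : ℕ)) ≤ τ := div_le_self hτ.le (by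
      have : (0 : ℝ) ≤ (k : ℕ) := by positivity
      linarith)
    simp only [t]
    linarith
  have ht : Function.Injective t := by
    intro a b hab
    simp only [t, add_right_inj] at hab
    rw [div_eq_div_iff (hpos a).ne' (hpos b).ne'] at hab
    have h1 := mul_left_cancel₀ hτ.ne' hab
    have h2 : ((a : ℕ) : ℝ) = (b : ℕ) := by linarith
    exact Fin.ext (by exact_mod_cast h2)
  let ρ : ℝ → (ZMod p → ℝ) → ZMod p → ℝ := fun s v k => max (‖hat v k‖ ^ 2 - s) 0 *
    ∏ k' ∈ Finset.univ.filter (fun k' : ZMod p => k'.val < k.val), max (s - ‖hat v k'‖ ^ 2) 0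
  have hρc : ∀ s k, Continuous fun v => ρ s v k := fun s k =>
    ((((continuous_hat k).norm.pow 2).sub continuous_const).max continuous_const).mul
      (continuous_finsetProd _ fun k' _ =>
        (continuous_const.sub ((continuous_hat k').norm.pow 2)).max continuous_const)
  have hρe : ∀ s v, ρ s (sg v) = ρ s v := by
    intro s v
    funext k
    simp only [ρ, hat_sg, norm_mul, norm_ch, mul_one]
  let u : Bool → ℂ := fun b => if b then 1 else Complex.I
  let Φ : Fin (L + 1) × Bool → (ZMod p → ℝ) → (ZMod p → ℝ) := fun q v =>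
    mult (fun k => (ρ (t q.1) v k : ℂ) * u q.2) v
  have hG := Gen.biUnion (Finset.univ : Finset (Fin (L + 1) × Bool)) (fun q => Φ q ⁻¹' Osg p)
    (fun _ => 1) (fun q _ => gen_Osg.preimage (by
      refine continuous_pi fun l => Complex.continuous_re.comp (continuous_finsetSum _ fun k _ => ?_)
      exact (((Complex.continuous_ofReal.comp (hρc _ k)).mul continuous_const).mul
        (continuous_hat k)).mul continuous_const) (fun y => by simp only [Φ, hρe, mult_sg]))
  refine hG.mono ?_ (by simp [mul_comm])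
  rintro v ⟨h0, ⟨a, ha⟩, S, hS, hv⟩
  obtain ⟨j, hj⟩ := exists_missed (fun k => ‖hat v k‖ ^ 2) L t ht S hS (fun i k h => hv i (by
      rw [h]; exact ht0 k))
  obtain ⟨k, hk, hmin⟩ := Finset.exists_min_image
    (Finset.univ.filter fun k => t j < ‖hat v k‖ ^ 2) ZMod.val
    ⟨a, Finset.mem_filter.2 ⟨Finset.mem_univ _, (ht1 j).trans_lt ha⟩⟩
  rw [Finset.mem_filter] at hk
  have hρk : 0 < ρ (t j) v k := by
    refine mul_pos (lt_max_of_lt_left (sub_pos.2 hk.2)) (Finset.prod_pos fun k' hk' => ?_)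
    refine lt_max_of_lt_left (sub_pos.2 (lt_of_le_of_ne ?_ (hj k')))
    by_contra hc
    have := hmin k' (Finset.mem_filter.2 ⟨Finset.mem_univ _, not_le.1 hc⟩)
    have := (Finset.mem_filter.1 hk').2
    omega
  have hρ0 : ∀ k', k' ≠ k → ρ (t j) v k' = 0 := by
    intro k' hk'
    by_cases h : t j < ‖hat v k'‖ ^ 2
    · have h1 := hmin k' (Finset.mem_filter.2 ⟨Finset.mem_univ _, h⟩)
      have h2 : k.val < k'.val := lt_of_le_of_ne h1 fun e => hk' (ZMod.val_injective p e).symm
      refine mul_eq_zero_of_right _ (Finset.prod_eq_zero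
        (Finset.mem_filter.2 ⟨Finset.mem_univ k, h2⟩) ?_)
      exact max_eq_right (by linarith [hk.2])
    · exact mul_eq_zero_of_left (max_eq_right (by linarith)) _
  have hΦ : ∀ b l, Φ (j, b) v l = ρ (t j) v k * (u b * hat v k * ch (k * l)).re := by
    intro b l
    simp only [Φ, mult]
    rw [Finset.sum_eq_single k]
    · rw [← Complex.re_ofReal_mul]
      congr 1
      ring
    · intro k' _ hk'
      simp [hρ0 k' hk']
    · simp
  have hz : hat v k ≠ 0 := by
    intro h
    have := hk.2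
    rw [h] at this
    have := ht0 j
    simp at *
    linarith
  simp only [mem_iUnion, mem_preimage]
  rcases re_or_im hp hz k with h | h
  · refine ⟨(j, true), Finset.mem_univ _, mem_Osg_of_sum (fun l => ?_) (sum_mult _ h0)⟩
    rw [hΦ]
    exact mul_ne_zero hρk.ne' (by simpa [u] using h l)
  · refine ⟨(j, false), Finset.mem_univ _, mem_Osg_of_sum (fun l => ?_) (sum_mult _ h0)⟩
    rw [hΦ]
    exact mul_ne_zero hρk.ne' (by simpa [u] using h l)

end Pool.Agent.H462Z.MD
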