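import Pool.Agent.Helper954.Hopf.D1c

set_option autoImplicit false

namespace Pool.Agent.H462Z.MD

open Set Filter Topology
open scoped BigOperators

/-- cyclic shift on `ZMod p → ℝ` -/
def sg {p : ℕ} (y : ZMod p → ℝ) : ZMod p → ℝ := fun l => y (l + 1)

theorem continuous_sg {p : ℕ} : Continuous (sg (p := p)) := by
  unfold sg; fun_prop

theorem sum_sg {p : ℕ} [NeZero p] {M : Type} [AddCommMonoid M] (y : ZMod p → M) :
    ∑ l, y (l + 1) = ∑ l, y l :=
  Equiv.sum_comp (Equiv.addRight (1 : ZMod p)) y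

/-- labelled invariant open set -/
def Lab {p : ℕ} (O : Set (ZMod p → ℝ)) : Prop :=
  IsOpen O ∧ ∃ lab : (ZMod p → ℝ) → ZMod p, (∀ x ∈ O, ∀ᶠ y in 𝓝 x, lab y = lab x) ∧
    (∀ x ∈ O, sg x ∈ O) ∧ ∀ x ∈ O, lab (sg x) = lab x + 1

/-- `Z` is covered by at most `k` labelled invariant open sets -/
def Gen {p : ℕ} (Z : Set (ZMod p → ℝ)) (k : ℝ) : Prop :=
  ∃ (J : Type) (_ : Fintype J) (O : J → Set (ZMod p → ℝ)), (∀ j, Lab (O j)) ∧
    (Fintype.card J : ℝ) ≤ k ∧ ∀ y ∈ Z, ∃ j, y ∈ O j

variable {p : ℕ}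

theorem Gen.mono {Y Y' : Set (ZMod p → ℝ)} {k k' : ℝ} (h : Gen Y k) (hY : Y' ⊆ Y) (hk : k ≤ k') :
    Gen Y' k' := by
  obtain ⟨J, i, O, h1, h2, h3⟩ := h
  exact ⟨J, i, O, h1, h2.trans hk, fun u hu => h3 u (hY hu)⟩

theorem Gen.empty {k : ℝ} (hk : 0 ≤ k) : Gen (∅ : Set (ZMod p → ℝ)) k :=
  ⟨Empty, inferInstance, fun j => j.elim, fun j => j.elim, by simpa using hk, fun _ hu => hu.elim⟩

theorem Gen.union {Y Y' : Set (ZMod p → ℝ)} {k k' : ℝ} (h : Gen Y k) (h' : Gen Y' k') :
    Gen (Y ∪ Y') (k + k') := by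
  obtain ⟨J, i, O, h1, h2, h3⟩ := h
  obtain ⟨J', i', O', h1', h2', h3'⟩ := h'
  refine ⟨J ⊕ J', inferInstance, Sum.elim O O', ?_, ?_, ?_⟩
  · rintro (j | j)
    exacts [h1 j, h1' j]
  · rw [Fintype.card_sum]
    push_cast
    linarith
  · rintro u (hu | hu)
    · obtain ⟨j, hj⟩ := h3 u hu
      exact ⟨Sum.inl j, hj⟩
    · obtain ⟨j, hj⟩ := h3' u hu
      exact ⟨Sum.inr j, hj⟩

theorem Gen.biUnion {ι : Type} (s : Finset ι) (Y : ι → Set (ZMod p → ℝ)) (k : ι → ℝ)
    (h : ∀ i ∈ s, Gen (Y i) (k i)) : Gen (⋃ i ∈ s, Y i) (∑ i ∈ s, k i) := by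
  classical
  induction s using Finset.induction_on with
  | empty => simpa using Gen.empty (p := p) le_rfl
  | insert a s ha ih =>
    rw [Finset.sum_insert ha, Finset.set_biUnion_insert]
    exact (h a (Finset.mem_insert_self _ _)).union
      (ih fun i hi => h i (Finset.mem_insert_of_mem hi))

theorem Gen.preimage {Y : Set (ZMod p → ℝ)} {k : ℝ} (h : Gen Y k)
    {Φ : (ZMod p → ℝ) → (ZMod p → ℝ)} (hc : Continuous Φ) (he : ∀ y, Φ (sg y) = sg (Φ y)) :
    Gen (Φ ⁻¹' Y) k := by
  obtain ⟨J, i, O, h1, h2, h3⟩ := h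
  refine ⟨J, i, fun j => Φ ⁻¹' O j, fun j => ?_, h2, fun y hy => h3 _ hy⟩
  obtain ⟨ho, lab, l1, l2, l3⟩ := h1 j
  refine ⟨ho.preimage hc, fun y => lab (Φ y), fun x hx => hc.continuousAt.eventually (l1 _ hx),
    fun x hx => ?_, fun x hx => ?_⟩
  · show Φ (sg x) ∈ O j
    rw [he]; exact l2 _ hx
  · show lab (Φ (sg x)) = lab (Φ x) + 1
    rw [he]; exact l3 _ hx

/-- vectors with no zero entry and entries of both signs -/
def Osg (p : ℕ) : Set (ZMod p → ℝ) := {v | (∀ l, v l ≠ 0) ∧ (∃ l, 0 < v l) ∧ ∃ l, v l < 0}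

theorem gen_Osg [Fact p.Prime] : Gen (Osg p) 1 := by
  classical
  refine ⟨Unit, inferInstance, fun _ => Osg p, fun _ => ⟨?_, ?_⟩, by simp, fun y hy => ⟨(), hy⟩⟩
  · have e : Osg p = (⋂ l, {v : ZMod p → ℝ | v l ≠ 0}) ∩ ((⋃ l, {v : ZMod p → ℝ | 0 < v l}) ∩
        ⋃ l, {v : ZMod p → ℝ | v l < 0}) := by
      ext v; simp [Osg]
    rw [e]
    refine (isOpen_iInter_of_finite fun l => isOpen_ne_fun (continuous_apply l) continuous_const).inter
      ((isOpen_iUnion fun l => isOpen_lt continuous_const (continuous_apply l)).inter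
        (isOpen_iUnion fun l => isOpen_lt (continuous_apply l) continuous_const))
  · let S : (ZMod p → ℝ) → Finset (ZMod p) := fun v => Finset.univ.filter fun l => 0 < v l
    refine ⟨fun v => -(∑ l ∈ S v, l) * ((S v).card : ZMod p)⁻¹, ?_, ?_, ?_⟩
    · intro x hx
      have : ∀ᶠ y in 𝓝 x, ∀ l, (0 < y l ↔ 0 < x l) := by
        rw [Filter.eventually_all]
        intro l
        rcases lt_or_gt_of_ne (hx.1 l) with h | h
        · filter_upwards [(isOpen_lt (continuous_apply l) continuous_const).mem_nhds h] with y hy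
          exact ⟨fun h' => absurd hy (not_lt.2 h'.le), fun h' => absurd h (not_lt.2 h'.le)⟩
        · filter_upwards [(isOpen_lt continuous_const (continuous_apply l)).mem_nhds h] with y hy
          exact ⟨fun _ => h, fun _ => hy⟩
      filter_upwards [this] with y hy
      have : S y = S x := by
        ext l; simp [S, hy l]
      rw [this]
    · rintro x ⟨h1, ⟨a, ha⟩, ⟨b, hb⟩⟩
      exact ⟨fun l => h1 _, ⟨a - 1, by simpa [sg] using ha⟩, ⟨b - 1, by simpa [sg] using hb⟩⟩
    · rintro x ⟨h1, ⟨a, ha⟩, ⟨b, hb⟩⟩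
      have hS : S (sg x) = (S x).map (Equiv.subRight (1 : ZMod p)).toEmbedding := by
        ext l
        simp only [S, sg, Finset.mem_filter, Finset.mem_univ, true_and, Finset.mem_map_equiv]
        simp
      have hc : ((S x).card : ZMod p) ≠ 0 := by
        intro h
        rw [ZMod.natCast_eq_zero_iff] at h
        have h0 : 0 < (S x).card := Finset.card_pos.2 ⟨a, by simpa [S] using ha⟩
        have h2 : (S x).card < Fintype.card (ZMod p) := by
          rw [← Finset.card_univ]
          refine Finset.card_lt_card ⟨Finset.subset_univ _, fun hh => ?_⟩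
          have := hh (Finset.mem_univ b)
          simp only [S, Finset.mem_filter, Finset.mem_univ, true_and] at this
          linarith
        rw [ZMod.card] at h2
        exact absurd (Nat.le_of_dvd h0 h) (not_le.2 h2)
      simp only [hS, Finset.card_map, Finset.sum_map, Equiv.coe_toEmbedding, Equiv.subRight_apply,
        Finset.sum_sub_distrib, Finset.sum_const, nsmul_eq_mul, mul_one]
      field_simp
      ring

theorem mem_Osg_of_sum [Fact p.Prime] {v : ZMod p → ℝ} (h : ∀ l, v l ≠ 0) (hs : ∑ l, v l = 0) :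
    v ∈ Osg p := by
  refine ⟨h, ?_, ?_⟩
  · by_contra hc
    push Not at hc
    have := (Finset.sum_eq_zero_iff_of_nonpos fun l _ => hc l).1 hs 0 (Finset.mem_univ _)
    exact h 0 this
  · by_contra hc
    push Not at hc
    have := (Finset.sum_eq_zero_iff_of_nonneg fun l _ => hc l).1 hs 0 (Finset.mem_univ _)
    exact h 0 this

/-- pigeonhole: one of `L + 1` different thresholds is missed -/
theorem exists_missed {ι : Type} [Fintype ι] (v : ι → ℝ) (L : ℕ) (t : Fin (L + 1) → ℝ)
    (ht : Function.Injective t) (S : Finset ι) (hS : S.card ≤ L)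
    (h : ∀ i k, v i = t k → i ∈ S) : ∃ k, ∀ i, v i ≠ t k := by
  classical
  by_contra hc
  push Not at hc
  choose f hf using hc
  have : (Finset.univ : Finset (Fin (L + 1))).card ≤ S.card :=
    Finset.card_le_card_of_injOn f (fun k _ => h _ k (hf k)) fun a _ b _ hab =>
      ht (by rw [← hf a, ← hf b, hab])
  simp at this
  omega

/-- nonnegative nonzero vectors with small support -/
theorem gen_supp [Fact p.Prime] (L : ℕ) (hL : L < p) :
    Gen {v : ZMod p → ℝ | (∀ l, 0 ≤ v l) ∧ (∃ l, v l ≠ 0) ∧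
      ∃ S : Finset (ZMod p), S.card ≤ L ∧ ∀ l, v l ≠ 0 → l ∈ S} (L + 1) := by
  classical
  let t : Fin (L + 1) → ℝ := fun k => 1 / ((L : ℝ) + 1 + (k : ℕ))
  have hpos : ∀ k : Fin (L + 1), (0 : ℝ) < (L : ℝ) + 1 + (k : ℕ) := fun k => by positivity
  have ht : Function.Injective t := by
    intro a b hab
    have h1 : (L : ℝ) + 1 + (a : ℕ) = (L : ℝ) + 1 + (b : ℕ) := by
      have := hab
      simp only [t, one_div, inv_inj] at this
      exact this
    have h2 : ((a : ℕ) : ℝ) = (b : ℕ) := by linarith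
    exact Fin.ext (by exact_mod_cast h2)
  let Φ : Fin (L + 1) → (ZMod p → ℝ) → (ZMod p → ℝ) := fun k v l => v l - t k * ∑ i, v i
  have hG := Gen.biUnion (Finset.univ : Finset (Fin (L + 1))) (fun k => Φ k ⁻¹' Osg p) (fun _ => 1)
    (fun k _ => gen_Osg.preimage (by simp only [Φ]; fun_prop) (by
      intro y
      funext l
      simp only [Φ, sg]
      rw [sum_sg y]))
  refine hG.mono ?_ (by simp)
  rintro v ⟨h0, ⟨a, ha⟩, S, hS, hv⟩
  have hs : 0 < ∑ i, v i :=
    Finset.sum_pos' (fun i _ => h0 i) ⟨a, Finset.mem_univ _, lt_of_le_of_ne (h0 a) ha.symm⟩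
  obtain ⟨k, hk⟩ := exists_missed v L (fun k => t k * ∑ i, v i)
    (fun a b hab => ht (mul_right_cancel₀ hs.ne' hab)) S hS (fun i k h => hv i (by
      rw [h]; exact (mul_pos (one_div_pos.2 (hpos k)) hs).ne'))
  simp only [mem_iUnion, mem_preimage]
  refine ⟨k, Finset.mem_univ _, fun l => sub_ne_zero.2 (hk l), ?_, ?_⟩
  · by_contra hc
    push Not at hc
    have h1 : ∑ i, v i = ∑ i ∈ S, v i := by
      refine (Finset.sum_subset (Finset.subset_univ _) fun i _ hi => ?_).symm
      by_contra h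
      exact hi (hv i h)
    have h2 : ∑ i ∈ S, v i ≤ S.card • (t k * ∑ i, v i) :=
      Finset.sum_le_card_nsmul _ _ _ fun i _ => by have := hc i; simp only [Φ] at this; linarith
    rw [nsmul_eq_mul, ← h1] at h2
    have h3 : (S.card : ℝ) * t k < 1 := by
      have : (S.card : ℝ) ≤ L := by exact_mod_cast hS
      simp only [t]
      rw [mul_one_div, div_lt_one (hpos k)]
      have : (0 : ℝ) ≤ (k : ℕ) := by positivity
      linarith
    nlinarith
  · have : ∃ b, b ∉ S := by
      by_contra hc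
      push Not at hc
      have : S = Finset.univ := Finset.eq_univ_of_forall hc
      rw [this, Finset.card_univ, ZMod.card] at hS
      omega
    obtain ⟨b, hb⟩ := this
    refine ⟨b, ?_⟩
    have : v b = 0 := by
      by_contra h
      exact hb (hv b h)
    simp only [Φ, this]
    have := mul_pos (one_div_pos.2 (hpos k)) hs
    simp only [t]
    linarith

/-- mean zero vectors with few small entries -/
theorem gen_few [Fact p.Prime] (L : ℕ) (hL : 2 * L < p) {η : ℝ} (hη : 0 < η) :
    Gen {v : ZMod p → ℝ | ∑ l, v l = 0 ∧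
      ∃ S : Finset (ZMod p), S.card ≤ L ∧ ∀ l, |v l| < η → l ∈ S} (L + 1) := by
  classical
  let t : Fin (L + 1) → ℝ := fun k => η / (2 + (k : ℕ))
  have hpos : ∀ k : Fin (L + 1), (0 : ℝ) < 2 + (k : ℕ) := fun k => by positivity
  have ht0 : ∀ k, 0 < t k := fun k => div_pos hη (hpos k)
  have ht1 : ∀ k, t k < η := fun k => by
    simp only [t]
    rw [div_lt_iff₀ (hpos k)]
    have : (0 : ℝ) ≤ (k : ℕ) := by positivity
    nlinarith
  have ht : Function.Injective t := by
    intro a b hab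
    simp only [t] at hab
    rw [div_eq_div_iff (hpos a).ne' (hpos b).ne'] at hab
    have h1 := mul_left_cancel₀ hη.ne' hab
    have h2 : ((a : ℕ) : ℝ) = (b : ℕ) := by linarith
    exact Fin.ext (by exact_mod_cast h2)
  let Φ : Fin (L + 1) → (ZMod p → ℝ) → (ZMod p → ℝ) := fun k v l => v l - t k
  have hG := Gen.biUnion (Finset.univ : Finset (Fin (L + 1))) (fun k => Φ k ⁻¹' Osg p) (fun _ => 1)
    (fun k _ => gen_Osg.preimage (by simp only [Φ]; fun_prop) (fun y => rfl))
  refine hG.mono ?_ (by simp)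
  rintro v ⟨h0, S, hS, hv⟩
  obtain ⟨k, hk⟩ := exists_missed v L t ht S hS (fun i k h => hv i (by
      rw [h, abs_of_pos (ht0 k)]; exact ht1 k))
  simp only [mem_iUnion, mem_preimage]
  refine ⟨k, Finset.mem_univ _, fun l => sub_ne_zero.2 (hk l), ?_, ?_⟩
  · by_contra hc
    push Not at hc
    have h1 : ∀ l, v l ≤ if l ∈ S then η else -η := by
      intro l
      have h2 := hc l
      simp only [Φ] at h2
      have h3 := ht1 k
      split_ifs with hl
      · linarith
      · by_contra h4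
        exact hl (hv l (abs_lt.2 ⟨by linarith, by linarith⟩))
    have h2 := Finset.sum_le_sum fun l (_ : l ∈ Finset.univ) => h1 l
    rw [h0, Finset.sum_ite, Finset.sum_const, Finset.sum_const] at h2
    have h3 := Finset.card_filter_add_card_filter_not (s := (Finset.univ : Finset (ZMod p)))
      (fun l => l ∈ S)
    rw [Finset.card_univ, ZMod.card] at h3
    have h4 : (Finset.univ.filter fun l => l ∈ S) = S := by ext; simp
    rw [h4] at h2 h3
    simp only [nsmul_eq_mul] at h2
    have h5 : (S.card : ℝ) < ((Finset.univ.filter fun l => ¬ l ∈ S).card : ℝ) := by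
      exact_mod_cast (by omega : S.card < (Finset.univ.filter fun l => ¬ l ∈ S).card)
    nlinarith
  · by_contra hc
    push Not at hc
    have h1 : ∀ l, 0 < v l := fun l => by have := hc l; have := ht0 k; simp only [Φ] at *; linarith
    have := Finset.sum_pos (fun l (_ : l ∈ Finset.univ) => h1 l) Finset.univ_nonempty
    linarith

/-- the base set: entries in `[0,1]`, some entry `1`, at most `M` nonzero entries -/
def Base (p M : ℕ) : Set (ZMod p → ℝ) :=
  {y | (∀ l, y l ∈ Icc (0 : ℝ) 1) ∧ (∃ l, y l = 1) ∧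
    ∃ S : Finset (ZMod p), S.card ≤ M ∧ ∀ l, y l ≠ 0 → l ∈ S}

open Pool.Agent.Helper954.Hopf.Dold in
theorem base_gen [Fact p.Prime] (M : ℕ) {k : ℝ} (h : Gen (Base p M) k) : (M : ℝ) ≤ k := by
  classical
  obtain ⟨J, i, O, h1, h2, h3⟩ := h
  refine le_trans ?_ h2
  by_contra hlt
  have hlt' : Fintype.card J < M := by exact_mod_cast not_le.1 hlt
  let Y : VV p M → (ZMod p → ℝ) := fun x l => max 0 (min 1 ((p : ℝ) * ∑ i, x i (-l)))
  have hYc : Continuous Y := by
    simp only [Y]; fun_prop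
  have hYe : ∀ x, Y (sh x) = sg (Y x) := by
    intro x
    funext l
    simp only [Y, sh, sg]
    have : -l - 1 = -(l + 1) := by ring
    rw [this]
  choose ho lab l1 l2 l3 using h1
  obtain ⟨x, hx, hO⟩ := D1c.join_cover p M hlt' (fun j => Y ⁻¹' O j) (fun j => (ho j).preimage hYc)
    (fun j x => lab j (Y x)) (fun j x hx => hYc.continuousAt.eventually (l1 j _ hx))
    (fun j x hx => by show Y (sh x) ∈ O j; rw [hYe]; exact l2 j _ hx)
    (fun j x hx => by show lab j (Y (sh x)) = _; rw [hYe]; exact l3 j _ hx)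
  obtain ⟨hx0, hx1, hx2⟩ := hx
  have hmem : Y x ∈ Base p M := by
    refine ⟨fun l => ⟨le_max_left _ _, max_le zero_le_one (min_le_left _ _)⟩, ?_, ?_⟩
    · by_contra hc
      push Not at hc
      have h4 : ∀ l, (p : ℝ) * ∑ i, x i l < 1 := by
        intro l
        by_contra h5
        apply hc (-l)
        simp only [Y, neg_neg]
        rw [min_eq_left (not_lt.1 h5), max_eq_right zero_le_one]
      have h5 := Finset.sum_lt_sum_of_nonempty Finset.univ_nonempty
        fun l (_ : l ∈ (Finset.univ : Finset (ZMod p))) => h4 l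
      rw [← Finset.mul_sum, Finset.sum_comm, hx1] at h5
      simp at h5
    · choose f hf using fun i => D1c.dc_slot (x i) (hx2 i)
      refine ⟨Finset.univ.image fun i => -f i, Finset.card_image_le.trans (by simp), fun l hl => ?_⟩
      by_contra hc
      apply hl
      have : ∀ i, x i (-l) = 0 := fun i => hf i _ fun e => hc
        (Finset.mem_image.2 ⟨i, Finset.mem_univ _, by rw [← e, neg_neg]⟩)
      simp [Y, this]
  obtain ⟨j, hj⟩ := h3 _ hmem
  exact hO j hj

end Pool.Agent.H462Z.MD
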