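import Pool.Agent.H462Z.MD.Zero

set_option autoImplicit false

namespace Pool.Agent.H462Z.MD

open Set Filter Topology
open scoped BigOperators ENNReal

theorem lip_approx {X : Type} [MetricSpace X] [CompactSpace X] (g : X → ℝ) (hg : Continuous g)
    (h01 : ∀ x, g x ∈ Icc (0 : ℝ) 1) : ∃ (G : X → ℝ) (Λ : ℝ), 0 < Λ ∧ Continuous G ∧
      (∀ x, |G x - g x| ≤ 1 / 8) ∧ ∀ x y, |G x - G y| ≤ Λ * dist x y := by
  obtain ⟨θ, hθ, h⟩ := Metric.uniformContinuous_iff.1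
    (CompactSpace.uniformContinuous_of_continuous hg) (1 / 8) (by norm_num)
  have hΛ : 0 < 1 / θ := by positivity
  let G : X → ℝ := fun x => ⨅ y, (g y + 1 / θ * dist x y)
  have hb : ∀ x, BddBelow (range fun y => g y + 1 / θ * dist x y) := fun x =>
    ⟨0, by rintro _ ⟨y, rfl⟩; exact add_nonneg (h01 y).1 (by positivity)⟩
  have h1 : ∀ x y, G x ≤ G y + 1 / θ * dist x y := by
    intro x y
    haveI : Nonempty X := ⟨x⟩
    rw [← sub_le_iff_le_add]
    refine le_ciInf fun z => ?_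
    have h2 : G x ≤ g z + 1 / θ * dist x z := ciInf_le (hb x) z
    have h3 := mul_le_mul_of_nonneg_left (dist_triangle x y z) hΛ.le
    linarith
  have h2 : ∀ x y, |G x - G y| ≤ 1 / θ * dist x y := fun x y => by
    have h3 := h1 x y
    have h4 := h1 y x
    rw [dist_comm] at h4
    exact abs_le.2 ⟨by linarith, by linarith⟩
  refine ⟨G, 1 / θ, hΛ, ?_, fun x => ?_, h2⟩
  · exact (LipschitzWith.of_dist_le_mul (K := ⟨1 / θ, hΛ.le⟩) fun x y => h2 x y).continuous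
  · haveI : Nonempty X := ⟨x⟩
    have h3 : G x ≤ g x + 1 / θ * dist x x := ciInf_le (hb x) x
    rw [dist_self, mul_zero, add_zero] at h3
    have h4 : g x - 1 / 8 ≤ G x := by
      refine le_ciInf fun y => ?_
      rcases lt_or_ge (dist x y) θ with h5 | h5
      · have h6 := abs_lt.1 (h h5)
        have : 0 ≤ 1 / θ * dist x y := by positivity
        linarith [h6.2]
      · have h6 : 1 ≤ 1 / θ * dist x y := by
          rw [one_div, inv_mul_eq_div, one_le_div hθ]; exact h5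
        linarith [(h01 x).2, (h01 y).1]
    exact abs_le.2 ⟨by linarith, by linarith⟩

theorem small_cover {X : Type} [MetricSpace X] [CompactSpace X] {ι : Type} (I : Finset ι)
    (f : ι → X → X) (hf : ∀ i, Continuous (f i)) {ε : ℝ} (hε : 0 < ε) :
    ∃ F : Finset (Set X), (∀ A ∈ F, IsOpen A) ∧ (∀ x, ∃ A ∈ F, x ∈ A) ∧
      ∀ A ∈ F, ∀ x ∈ A, ∀ y ∈ A, ∀ i ∈ I, dist (f i x) (f i y) < ε := by
  classical
  let U : X → Set X := fun z => ⋂ i ∈ I, f i ⁻¹' Metric.ball (f i z) (ε / 2)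
  have hU : ∀ z, IsOpen (U z) := fun z =>
    isOpen_biInter_finset fun i _ => Metric.isOpen_ball.preimage (hf i)
  obtain ⟨t, ht⟩ := isCompact_univ.elim_finite_subcover U hU fun z _ =>
    mem_iUnion.2 ⟨z, mem_iInter₂.2 fun i _ => Metric.mem_ball_self (half_pos hε)⟩
  refine ⟨t.image U, fun A hA => ?_, fun x => ?_, fun A hA x hx y hy i hi => ?_⟩
  · obtain ⟨z, -, rfl⟩ := Finset.mem_image.1 hA
    exact hU z
  · obtain ⟨z, hz, hx⟩ := mem_iUnion₂.1 (ht (mem_univ x))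
    exact ⟨U z, Finset.mem_image_of_mem _ hz, hx⟩
  · obtain ⟨z, -, rfl⟩ := Finset.mem_image.1 hA
    have h1 : dist (f i x) (f i z) < ε / 2 := mem_iInter₂.1 hx i hi
    have h2 : dist (f i y) (f i z) < ε / 2 := mem_iInter₂.1 hy i hi
    linarith [dist_triangle_right (f i x) (f i y) (f i z)]

/-- `d` is a metric that induces the topology of `X` -/
def Compat {X : Type} [TopologicalSpace X] (d : X → X → ℝ) : Prop :=
  (∀ x y, d x y = 0 ↔ x = y) ∧ (∀ x y, d x y = d y x) ∧ (∀ x y z, d x z ≤ d x y + d y z) ∧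
    ∀ U : Set X, IsOpen U ↔ ∀ x ∈ U, ∃ r > 0, ∀ y, d x y < r → y ∈ U

theorem Compat.lip {X : Type} [TopologicalSpace X] [CompactSpace X] {d : X → X → ℝ} (hd : Compat d)
    (g : X → ℝ) (hg : Continuous g) (h01 : ∀ x, g x ∈ Icc (0 : ℝ) 1) :
    ∃ (G : X → ℝ) (Λ : ℝ), 0 < Λ ∧ Continuous G ∧
      (∀ x, |G x - g x| ≤ 1 / 8) ∧ ∀ x y, |G x - G y| ≤ Λ * d x y :=
  @lip_approx X (MetricSpace.ofDistTopology d (fun x => (hd.1 x x).2 rfl) hd.2.1 hd.2.2.1 hd.2.2.2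
    fun x y => (hd.1 x y).1) ‹_› g hg h01

theorem Compat.cover {X : Type} [TopologicalSpace X] [CompactSpace X] {d : X → X → ℝ}
    (hd : Compat d) {ι : Type} (I : Finset ι) (f : ι → X → X) (hf : ∀ i, Continuous (f i))
    {ε : ℝ} (hε : 0 < ε) : ∃ F : Finset (Set X), (∀ A ∈ F, IsOpen A) ∧ (∀ x, ∃ A ∈ F, x ∈ A) ∧
      ∀ A ∈ F, ∀ x ∈ A, ∀ y ∈ A, ∀ i ∈ I, d (f i x) (f i y) < ε :=
  @small_cover X (MetricSpace.ofDistTopology d (fun x => (hd.1 x x).2 rfl) hd.2.1 hd.2.2.1 hd.2.2.2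
    fun x y => (hd.1 x y).1) ‹_› ι I f hf ε hε

/-- lower bound for the covering numbers for every compatible metric -/
theorem key_metric {d : XS → XS → ℝ} (hd : Compat d) : ∀ᶠ ε : ℝ in 𝓝[>] 0, ∀ n : ℕ, 128 ≤ n →
    ∀ F : Finset (Set XS), (∀ x, ∃ A ∈ F, x ∈ A) →
      (∀ A ∈ F, ∀ x ∈ A, ∀ y ∈ A, ∀ i : ℕ, i < n → d (act i x) (act i y) ≤ ε) →
      n * (1 / 2 ^ 24 * Real.log (1 / ε)) ≤ Real.log F.card := by
  obtain ⟨G, Λ, hΛ, hG, hG0, hL⟩ := hd.lip (fun x : XS => x.1 0)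
    ((continuous_apply 0).comp continuous_subtype_val) fun x => x.2.1 0
  have h1 : Tendsto (fun ε : ℝ => Real.log (1 / ε)) (𝓝[>] 0) atTop := by
    simp only [one_div]
    exact Real.tendsto_log_atTop.comp tendsto_inv_nhdsGT_zero
  filter_upwards [h1.eventually_ge_atTop (2 * Real.log (4 * Λ) + 3 * 2 ^ 24),
    Ioo_mem_nhdsGT (show (0 : ℝ) < 1 / (4 * Λ) by positivity)] with ε h2 h3 n hn F hc hF
  have h4 : Λ * ε ≤ 1 / 4 := by
    have := h3.2
    rw [lt_div_iff₀ (by positivity)] at this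
    linarith
  have h5 := key G hG hG0 (mul_pos hΛ h3.1) h4 hn F hc fun A hA x hx y hy i hi =>
    (hL _ _).trans (mul_le_mul_of_nonneg_left (hF A hA x hx y hy i hi) hΛ.le)
  refine le_trans (mul_le_mul_of_nonneg_left ?_ (Nat.cast_nonneg n)) h5
  have h6 : Real.log (1 / (4 * (Λ * ε))) = Real.log (1 / ε) - Real.log (4 * Λ) := by
    rw [← Real.log_div (by have := h3.1; positivity) (by positivity)]
    congr 1
    have := h3.1.ne'
    field_simp
  rw [h6]
  linarith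

end Pool.Agent.H462Z.MD
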