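import Mathlib

set_option autoImplicit false

namespace Pool.Agent.H462Z.MD

open Set MeasureTheory Matrix
open scoped BigOperators

theorem vol_ball {D : Type} [Fintype D] (R : ℝ) :
    volume {x : D → ℝ | ∑ d, x d ^ 2 ≤ R} ≤ ENNReal.ofReal (Real.exp (R + Fintype.card D)) := by
  have hint : Integrable (fun x : D → ℝ => ∏ d, Real.exp (-1 * x d ^ 2)) :=
    Integrable.fintype_prod (f := fun _ (t : ℝ) => Real.exp (-1 * t ^ 2))
      fun _ => integrable_exp_neg_mul_sq one_pos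
  have hval : ∫ x : D → ℝ, ∏ d, Real.exp (-1 * x d ^ 2) = (√(Real.pi / 1)) ^ Fintype.card D := by
    rw [integral_fintype_prod_volume_eq_pow (fun t : ℝ => Real.exp (-1 * t ^ 2)), integral_gaussian]
  have hnn : ∀ x : D → ℝ, 0 ≤ ∏ d, Real.exp (-1 * x d ^ 2) :=
    fun x => Finset.prod_nonneg fun d _ => (Real.exp_pos _).le
  have h1 := mul_meas_ge_le_integral_of_nonneg (Filter.Eventually.of_forall hnn) hint (Real.exp (-R))
  have hsub : {x : D → ℝ | ∑ d, x d ^ 2 ≤ R} ⊆
      {x : D → ℝ | Real.exp (-R) ≤ ∏ d, Real.exp (-1 * x d ^ 2)} := by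
    intro x hx
    simp only [mem_setOf_eq] at hx ⊢
    rw [← Real.exp_sum, ← Finset.mul_sum]
    exact Real.exp_le_exp.2 (by linarith)
  refine (measure_mono hsub).trans ?_
  have hfin : volume {x : D → ℝ | Real.exp (-R) ≤ ∏ d, Real.exp (-1 * x d ^ 2)} ≠ ⊤ :=
    (hint.measure_ge_lt_top (Real.exp_pos _)).ne
  rw [← ENNReal.ofReal_toReal hfin]
  refine ENNReal.ofReal_le_ofReal ?_
  have h2 : √(Real.pi / 1) ≤ Real.exp 1 := by
    have h3 := Real.pi_lt_four
    have h4 : (2 : ℝ) ≤ Real.exp 1 := by have := Real.add_one_le_exp (1 : ℝ); linarith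
    refine le_trans ?_ h4
    rw [Real.sqrt_le_left (by norm_num)]
    linarith
  have h3 : (√(Real.pi / 1)) ^ Fintype.card D ≤ Real.exp (Fintype.card D) := by
    rw [← mul_one (Fintype.card D : ℝ), Real.exp_nat_mul]
    exact pow_le_pow_left₀ (Real.sqrt_nonneg _) h2 _
  rw [hval] at h1
  have h4 : Real.exp (R + Fintype.card D) = Real.exp (Fintype.card D) / Real.exp (-R) := by
    rw [← Real.exp_sub]; ring_nf
  rw [h4, le_div_iff₀ (Real.exp_pos _), mul_comm]
  exact h1.trans h3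

theorem log_concave {K e l : ℝ} (hK : 0 < K) (he : 0 < e) (h0 : 0 ≤ l) (h1 : l ≤ K) :
    l / K * Real.log (K / e) ≤ Real.log (1 + l / e) := by
  have ha : 0 ≤ l / K := div_nonneg h0 hK.le
  have hb : 0 ≤ 1 - l / K := by rw [sub_nonneg, div_le_one hK]; exact h1
  have h2 := strictConcaveOn_log_Ioi.concaveOn.2 (x := 1 + K / e) (y := 1)
    (by have := div_pos hK he; simp only [mem_Ioi]; linarith) (by simp) ha hb (by ring)
  simp only [smul_eq_mul, Real.log_one, mul_zero, add_zero, mul_one] at h2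
  have h3 : l / K * (1 + K / e) + (1 - l / K) = 1 + l / e := by field_simp; ring
  rw [h3] at h2
  refine le_trans (mul_le_mul_of_nonneg_left ?_ ha) h2
  exact Real.log_le_log (div_pos hK he) (by linarith)

theorem vol_bound {D S : Type} [Fintype D] [Fintype S] [DecidableEq D] (A : Matrix S D ℝ)
    {K c η : ℝ} (hK : 0 < K) (hη : 0 < η) (hηK : η ^ 2 ≤ K) (hrow : c ≤ ∑ i, ∑ d, A i d ^ 2)
    (hop : ∀ x : D → ℝ, ∑ i, (A *ᵥ x) i ^ 2 ≤ K * ∑ d, x d ^ 2) :
    volume {x : D → ℝ | (∀ d, x d ∈ Icc (0 : ℝ) 1) ∧ ∀ i, |(A *ᵥ x) i| ≤ η} ≤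
      ENNReal.ofReal (Real.exp (2 * Fintype.card D + Fintype.card S -
        c / (2 * K) * Real.log (K / η ^ 2))) := by
  have hH : (Aᵀ * A).IsHermitian := by
    have := isHermitian_conjTranspose_mul_self A
    rwa [conjTranspose_eq_transpose_of_trivial] at this
  set U : Matrix D D ℝ := (hH.eigenvectorUnitary : Matrix D D ℝ) with hU
  set lam : D → ℝ := hH.eigenvalues with hlam
  have hspec : Aᵀ * A = U * diagonal lam * Uᵀ := by
    have := hH.spectral_theorem
    rw [Unitary.conjStarAlgAut_apply] at this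
    refine this.trans ?_
    rw [← conjTranspose_eq_transpose_of_trivial U, ← star_eq_conjTranspose]
    congr 2
  have hUU : U * Uᵀ = 1 := by
    rw [← conjTranspose_eq_transpose_of_trivial, ← star_eq_conjTranspose]
    exact hH.eigenvectorUnitary.2.2
  have hUU' : Uᵀ * U = 1 := by
    rw [← conjTranspose_eq_transpose_of_trivial, ← star_eq_conjTranspose]
    exact hH.eigenvectorUnitary.2.1
  have sq : ∀ {T : Type} [Fintype T] (v : T → ℝ), ∑ d, v d ^ 2 = v ⬝ᵥ v := by
    intro T _ v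
    simp [dotProduct, pow_two]
  have I1 : ∀ x : D → ℝ, ∑ d, (Uᵀ *ᵥ x) d ^ 2 = ∑ d, x d ^ 2 := by
    intro x
    rw [sq, sq, dotProduct_mulVec, vecMul_transpose, mulVec_mulVec, hUU, one_mulVec]
  have I2 : ∀ x : D → ℝ, ∑ d, lam d * (Uᵀ *ᵥ x) d ^ 2 = ∑ i, (A *ᵥ x) i ^ 2 := by
    intro x
    have h1 : ∑ i, (A *ᵥ x) i ^ 2 = x ⬝ᵥ ((Aᵀ * A) *ᵥ x) := by
      rw [sq, ← mulVec_mulVec, dotProduct_mulVec x, vecMul_transpose]
    rw [h1, hspec, ← mulVec_mulVec, ← mulVec_mulVec, dotProduct_mulVec x, ← mulVec_transpose]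
    simp only [dotProduct, mulVec_diagonal]
    exact Finset.sum_congr rfl fun d _ => by ring
  have hl : ∀ d, 0 ≤ lam d ∧ lam d ≤ K := by
    intro d
    have h1 : Uᵀ *ᵥ (U *ᵥ Pi.single d 1) = Pi.single d 1 := by
      rw [mulVec_mulVec, hUU', one_mulVec]
    have h2 := I1 (U *ᵥ Pi.single d 1)
    have h3 := I2 (U *ᵥ Pi.single d 1)
    have h4 := hop (U *ᵥ Pi.single d 1)
    rw [h1] at h2 h3
    have h5 : ∑ e, (Pi.single d (1 : ℝ) : D → ℝ) e ^ 2 = 1 := by
      rw [Finset.sum_eq_single d] <;> simp +contextual [Pi.single_apply]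
    have h6 : ∑ e, lam e * (Pi.single d (1 : ℝ) : D → ℝ) e ^ 2 = lam d := by
      rw [Finset.sum_eq_single d] <;> simp +contextual [Pi.single_apply]
    rw [h5] at h2
    rw [h6] at h3
    rw [← h2, ← h3] at h4
    refine ⟨?_, by linarith⟩
    rw [h3]
    exact Finset.sum_nonneg fun _ _ => sq_nonneg _
  have htr : c ≤ ∑ d, lam d := by
    have h1 := hH.trace_eq_sum_eigenvalues
    have h2 : (Aᵀ * A).trace = ∑ i, ∑ d, A i d ^ 2 := by
      simp only [trace, diag, mul_apply, transpose_apply, pow_two]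
      exact Finset.sum_comm
    rw [h2] at h1
    simpa [h1] using hrow
  have hη2 : 0 < η ^ 2 := by positivity
  let r : D → ℝ := fun d => √(1 + lam d / η ^ 2)
  have hr1 : ∀ d, 0 < 1 + lam d / η ^ 2 := fun d => by
    have := div_nonneg (hl d).1 hη2.le; linarith
  have hr : ∀ d, 0 < r d := fun d => Real.sqrt_pos.2 (hr1 d)
  let Rm : Matrix D D ℝ := diagonal r * Uᵀ
  have hdetU : |U.det| = 1 := by
    have h1 := congrArg det hUU
    rw [det_mul, det_transpose, det_one] at h1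
    have : |U.det| ^ 2 = 1 := by rw [sq_abs, pow_two, h1]
    nlinarith [abs_nonneg U.det]
  have hdet : |Rm.det| = ∏ d, r d := by
    simp only [Rm, det_mul, det_diagonal, det_transpose, abs_mul, hdetU, mul_one]
    exact abs_of_pos (Finset.prod_pos fun d _ => hr d)
  have hprod : 0 < ∏ d, r d := Finset.prod_pos fun d _ => hr d
  have hdet0 : LinearMap.det (toLin' Rm) ≠ 0 := by
    rw [LinearMap.det_toLin']
    intro h
    rw [h, abs_zero] at hdet
    linarith
  have hsub : {x : D → ℝ | (∀ d, x d ∈ Icc (0 : ℝ) 1) ∧ ∀ i, |(A *ᵥ x) i| ≤ η} ⊆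
      toLin' Rm ⁻¹' {x : D → ℝ | ∑ d, x d ^ 2 ≤ Fintype.card D + Fintype.card S} := by
    rintro x ⟨h1, h2⟩
    simp only [mem_preimage, mem_setOf_eq, toLin'_apply, Rm, ← mulVec_mulVec, mulVec_diagonal]
    have h3 : ∑ d, (r d * (Uᵀ *ᵥ x) d) ^ 2 =
        ∑ d, (Uᵀ *ᵥ x) d ^ 2 + (∑ d, lam d * (Uᵀ *ᵥ x) d ^ 2) / η ^ 2 := by
      rw [Finset.sum_div, ← Finset.sum_add_distrib]
      refine Finset.sum_congr rfl fun d _ => ?_
      rw [mul_pow, Real.sq_sqrt (hr1 d).le]
      ring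
    rw [h3, I1, I2]
    have h4 : ∑ d, x d ^ 2 ≤ Fintype.card D := by
      have := Finset.sum_le_card_nsmul Finset.univ (fun d => x d ^ 2) 1
        fun d _ => pow_le_one₀ (h1 d).1 (h1 d).2
      simpa using this
    have h5 : (∑ i, (A *ᵥ x) i ^ 2) / η ^ 2 ≤ Fintype.card S := by
      rw [div_le_iff₀ hη2]
      have := Finset.sum_le_card_nsmul Finset.univ (fun i => (A *ᵥ x) i ^ 2) (η ^ 2)
        fun i _ => by rw [← sq_abs]; exact pow_le_pow_left₀ (abs_nonneg _) (h2 i) 2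
      simpa using this
    linarith
  refine (measure_mono hsub).trans ?_
  rw [Measure.addHaar_preimage_linearMap _ hdet0, LinearMap.det_toLin', abs_inv, hdet]
  refine (mul_le_mul_right (vol_ball _) _).trans ?_
  rw [← ENNReal.ofReal_mul (inv_pos.2 hprod).le]
  refine ENNReal.ofReal_le_ofReal ?_
  have hlog : c / (2 * K) * Real.log (K / η ^ 2) ≤ Real.log (∏ d, r d) := by
    rw [Real.log_prod fun d _ => (hr d).ne']
    have h1 : ∀ d, lam d / (2 * K) * Real.log (K / η ^ 2) ≤ Real.log (r d) := by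
      intro d
      simp only [r]
      rw [Real.log_sqrt (hr1 d).le]
      have := log_concave hK hη2 (hl d).1 (hl d).2
      have h2 : lam d / (2 * K) * Real.log (K / η ^ 2) = lam d / K * Real.log (K / η ^ 2) / 2 := by
        field_simp
      rw [h2]
      linarith
    refine le_trans ?_ (Finset.sum_le_sum fun d _ => h1 d)
    rw [← Finset.sum_mul, ← Finset.sum_div]
    have h2 : 0 ≤ Real.log (K / η ^ 2) := Real.log_nonneg ((one_le_div hη2).2 hηK)
    gcongr
  rw [← Real.exp_log hprod, ← Real.exp_neg, ← Real.exp_add]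
  refine Real.exp_le_exp.2 ?_
  linarith

end Pool.Agent.H462Z.MD
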