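import Pool.Agent.H462Z.MD.Four
import Pool.Agent.H462Z.MD.Vol

set_option autoImplicit false

namespace Pool.Agent.H462Z.MD

open Set Filter Topology MeasureTheory Matrix
open scoped BigOperators

variable {p : ℕ}

/-- complex multiplier from real parameters -/
noncomputable def zz (x : ZMod p × Bool → ℝ) (k : ZMod p) : ℂ :=
  (x (k, true) : ℂ) + x (k, false) * Complex.I

theorem norm_zz (x : ZMod p × Bool → ℝ) (k : ZMod p) :
    ‖zz x k‖ ^ 2 = x (k, true) ^ 2 + x (k, false) ^ 2 := by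
  rw [zz, ← Complex.normSq_eq_norm_sq, Complex.normSq_add_mul_I]

theorem vol_bad [NeZero p] {K c η : ℝ} (hK : 0 < K) (hη : 0 < η) (hηK : η ^ 2 ≤ K)
    {v : ZMod p → ℝ} (hc : c ≤ ∑ k, ‖hat v k‖ ^ 2) (hf : ∀ k, ‖hat v k‖ ^ 2 ≤ K / p)
    (S : Finset (ZMod p)) :
    volume {x : ZMod p × Bool → ℝ | (∀ d, x d ∈ Icc (0 : ℝ) 1) ∧ ∀ i ∈ S, |mult (zz x) v i| ≤ η} ≤
      ENNReal.ofReal (Real.exp (4 * p + S.card - c * S.card / (2 * K) * Real.log (K / η ^ 2))) := by
  classical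
  have hp : (0 : ℝ) < p := by exact_mod_cast NeZero.pos p
  let A : Matrix S (ZMod p × Bool) ℝ := fun i d =>
    ((if d.2 then 1 else Complex.I) * hat v d.1 * ch (d.1 * i.1)).re
  have hA : ∀ x (i : S), (A *ᵥ x) i = mult (zz x) v i := by
    intro x i
    simp only [A, mulVec, dotProduct, mult, Complex.re_sum]
    rw [Fintype.sum_prod_type]
    refine Finset.sum_congr rfl fun k _ => ?_
    simp [zz]
    ring
  have h := vol_bound A (c := c * S.card) hK hη hηK (by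
    have h1 : ∀ i : S, ∑ d, A i d ^ 2 = ∑ k, ‖hat v k‖ ^ 2 := by
      intro i
      rw [Fintype.sum_prod_type]
      refine Finset.sum_congr rfl fun k _ => ?_
      have h2 : ‖hat v k‖ ^ 2 = ‖hat v k * ch (k * i.1)‖ ^ 2 := by rw [norm_mul, norm_ch, mul_one]
      rw [h2, ← Complex.normSq_eq_norm_sq, Complex.normSq_apply]
      simp [A]
      ring
    simp only [h1, Finset.sum_const, Finset.card_univ, Fintype.card_coe, nsmul_eq_mul]
    rw [mul_comm]
    gcongr) (by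
    intro x
    simp only [hA]
    have h1 : ∑ i : S, mult (zz x) v i ^ 2 ≤ ∑ i, mult (zz x) v i ^ 2 := by
      rw [Finset.sum_coe_sort S (fun i => mult (zz x) v i ^ 2)]
      exact Finset.sum_le_sum_of_subset_of_nonneg (Finset.subset_univ _) fun _ _ _ => sq_nonneg _
    refine h1.trans ((sum_sq_mult _ _).trans ?_)
    rw [Fintype.sum_prod_type, Finset.mul_sum, Finset.mul_sum]
    refine Finset.sum_le_sum fun k _ => ?_
    rw [norm_zz, Fintype.sum_bool]
    have h2 := hf k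
    rw [le_div_iff₀ hp] at h2
    nlinarith [sq_nonneg (x (k, true)), sq_nonneg (x (k, false))])
  simp only [hA, Fintype.card_prod, ZMod.card, Fintype.card_bool, Fintype.card_coe,
    Subtype.forall] at h
  convert h using 4
  push_cast
  ring

theorem gen_flat [Fact p.Prime] (W : Set (ZMod p → ℝ)) {K c η e : ℝ} (hK : 0 < K) (hη : 0 < η)
    (hηK : η ^ 2 ≤ K) (F : Finset (Set (ZMod p → ℝ))) (hcov : ∀ v ∈ W, ∃ A ∈ F, v ∈ A)
    (hd : ∀ A ∈ F, ∀ v ∈ A, ∀ w ∈ A, ∑ l, (v l - w l) ^ 2 ≤ e ^ 2 * p)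
    (hW : ∀ v ∈ W, hat v 0 = 0 ∧ c ≤ ∑ k, ‖hat v k‖ ^ 2 ∧ ∀ k, ‖hat v k‖ ^ 2 ≤ K / p)
    (r : ℕ) (hr : 4 * r < p) (he : 8 * e ^ 2 * p ≤ η ^ 2 * r)
    (hN : F.card * 2 ^ p * Real.exp (4 * p + r - c * r / (2 * K) * Real.log (K / η ^ 2)) < 1) :
    Gen W (2 * r + 1) := by
  classical
  have hp : (0 : ℝ) < p := by exact_mod_cast NeZero.pos p
  let F' := F.filter fun A => (A ∩ W).Nonempty
  have hrep : ∀ A : Set (ZMod p → ℝ), ∃ v : ZMod p → ℝ, (A ∩ W).Nonempty → v ∈ A ∩ W := by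
    intro A
    by_cases h : (A ∩ W).Nonempty
    · exact ⟨h.some, fun _ => h.some_mem⟩
    · exact ⟨0, fun h' => absurd h' h⟩
  choose rep hrep using hrep
  let B : Set (ZMod p → ℝ) × Finset (ZMod p) → Set (ZMod p × Bool → ℝ) := fun q =>
    {x | (∀ d, x d ∈ Icc (0 : ℝ) 1) ∧ ∀ i ∈ q.2, |mult (zz x) (rep q.1) i| ≤ η}
  let I := F' ×ˢ Finset.powersetCard r (Finset.univ : Finset (ZMod p))
  let b := Real.exp (4 * p + r - c * r / (2 * K) * Real.log (K / η ^ 2))
  have hB : ∀ q ∈ I, volume (B q) ≤ ENNReal.ofReal b := by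
    intro q hq
    obtain ⟨h1, h2⟩ := Finset.mem_product.1 hq
    have h3 := hW _ (hrep _ (Finset.mem_filter.1 h1).2).2
    have h4 := vol_bad hK hη hηK h3.2.1 h3.2.2 q.2
    rwa [(Finset.mem_powersetCard.1 h2).2] at h4
  have hI : (I.card : ℝ) ≤ F.card * 2 ^ p := by
    have h1 : (Finset.powersetCard r (Finset.univ : Finset (ZMod p))).card ≤ 2 ^ p := by
      rw [Finset.card_powersetCard, Finset.card_univ, ZMod.card]
      exact Nat.choose_le_two_pow _ _
    have h2 : I.card ≤ F.card * 2 ^ p := by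
      rw [Finset.card_product]
      exact Nat.mul_le_mul (Finset.card_filter_le _ _) h1
    exact_mod_cast h2
  have hvol : volume (⋃ q ∈ I, B q) < 1 := by
    refine (measure_biUnion_finset_le _ _).trans_lt ?_
    refine (Finset.sum_le_card_nsmul _ _ _ hB).trans_lt ?_
    rw [nsmul_eq_mul, ← ENNReal.ofReal_natCast, ← ENNReal.ofReal_mul (by positivity),
      ENNReal.ofReal_lt_one]
    exact (mul_le_mul_of_nonneg_right hI (Real.exp_pos _).le).trans_lt hN
  have hex : ∃ x : ZMod p × Bool → ℝ, (∀ d, x d ∈ Icc (0 : ℝ) 1) ∧ x ∉ ⋃ q ∈ I, B q := by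
    by_contra hc
    push Not at hc
    have h1 : Icc (0 : ZMod p × Bool → ℝ) 1 ⊆ ⋃ q ∈ I, B q := fun x hx =>
      hc x fun d => ⟨hx.1 d, hx.2 d⟩
    have h2 := (measure_mono h1).trans_lt hvol
    rw [Real.volume_Icc_pi] at h2
    simp at h2
  obtain ⟨x, hx, hxB⟩ := hex
  have hG := (gen_few (p := p) (2 * r) (by omega) (half_pos hη)).preimage (Φ := mult (zz x))
    (continuous_pi fun l => Complex.continuous_re.comp (continuous_finsetSum _ fun k _ =>
      (continuous_const.mul (continuous_hat k)).mul continuous_const)) (mult_sg _)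
  refine hG.mono ?_ (by push_cast; exact le_rfl)
  intro w hw
  obtain ⟨A, hA, hwA⟩ := hcov w hw
  have hne : (A ∩ W).Nonempty := ⟨w, hwA, hw⟩
  obtain ⟨hvA, hvW⟩ := hrep A hne
  refine ⟨sum_mult _ (hW w hw).1, ?_⟩
  let S1 := Finset.univ.filter fun i => |mult (zz x) (rep A) i| ≤ η
  let S2 := Finset.univ.filter fun i => η / 2 ≤ |mult (zz x) (rep A - w) i|
  have h1 : S1.card ≤ r := by
    by_contra hc
    obtain ⟨S, hS, hSc⟩ := Finset.exists_subset_card_eq (not_le.1 hc).le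
    apply hxB
    simp only [mem_iUnion]
    refine ⟨(A, S), Finset.mem_product.2 ⟨Finset.mem_filter.2 ⟨hA, hne⟩,
      Finset.mem_powersetCard.2 ⟨Finset.subset_univ _, hSc⟩⟩, hx, fun i hi => ?_⟩
    exact (Finset.mem_filter.1 (hS hi)).2
  have h2 : S2.card ≤ r := by
    have h3 : S2.card • (η / 2) ^ 2 ≤ ∑ i ∈ S2, mult (zz x) (rep A - w) i ^ 2 :=
      Finset.card_nsmul_le_sum _ _ _ fun i hi => by
        rw [← sq_abs (mult _ _ _)]
        exact pow_le_pow_left₀ (half_pos hη).le (Finset.mem_filter.1 hi).2 2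
    have h4 : ∑ i ∈ S2, mult (zz x) (rep A - w) i ^ 2 ≤ ∑ i, mult (zz x) (rep A - w) i ^ 2 :=
      Finset.sum_le_sum_of_subset_of_nonneg (Finset.subset_univ _) fun _ _ _ => sq_nonneg _
    have h5 := sum_sq_mult (zz x) (rep A - w)
    have h6 : ∑ k, ‖zz x k‖ ^ 2 * ‖hat (rep A - w) k‖ ^ 2 ≤ ∑ k, 2 * ‖hat (rep A - w) k‖ ^ 2 := by
      refine Finset.sum_le_sum fun k _ => mul_le_mul_of_nonneg_right ?_ (sq_nonneg _)
      rw [norm_zz]
      have := pow_le_one₀ (n := 2) (hx (k, true)).1 (hx (k, true)).2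
      have := pow_le_one₀ (n := 2) (hx (k, false)).1 (hx (k, false)).2
      linarith
    rw [← Finset.mul_sum, sum_hat] at h6
    have h7 := hd A hA _ hvA w hwA
    simp only [Pi.sub_apply] at h6
    have h8 : (p : ℝ) * (2 * ((∑ l, (rep A l - w l) ^ 2) / p)) ≤ 2 * (e ^ 2 * p) := by
      rw [mul_left_comm, mul_div_cancel₀ _ hp.ne']
      linarith
    have h9 := mul_le_mul_of_nonneg_left h6 hp.le
    rw [nsmul_eq_mul] at h3
    have h10 : (S2.card : ℝ) * η ^ 2 ≤ r * η ^ 2 := by nlinarith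
    have h11 := le_of_mul_le_mul_right h10 (by positivity)
    exact_mod_cast h11
  refine ⟨S1 ∪ S2, (Finset.card_union_le _ _).trans (by omega), fun l hl => ?_⟩
  by_contra hc
  simp only [S1, S2, Finset.mem_union, Finset.mem_filter, Finset.mem_univ, true_and, not_or,
    not_le, mult_sub] at hc
  have := abs_sub_abs_le_abs_sub (mult (zz x) (rep A) l) (mult (zz x) w l)
  linarith [hc.1, hc.2]

theorem gen_ctr [Fact p.Prime] (hp : 64 ≤ p) (W : Set (ZMod p → ℝ)) {e : ℝ} (he0 : 0 < e)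
    (he1 : e ≤ 1 / 2) (F : Finset (Set (ZMod p → ℝ))) (hcov : ∀ v ∈ W, ∃ A ∈ F, v ∈ A)
    (hd : ∀ A ∈ F, ∀ v ∈ A, ∀ w ∈ A, ∑ l, (v l - w l) ^ 2 ≤ e ^ 2 * p)
    (hW : ∀ v ∈ W, ∑ l, v l = 0 ∧ p / 512 ≤ ∑ l, v l ^ 2 ∧ ∑ l, v l ^ 2 ≤ 2 * p)
    (hN : Real.log F.card < p * (1 / 2 ^ 22 * Real.log (1 / (2 * e)) - 6)) :
    Gen W (3 * p / 32 + 5) := by
  classical
  have hpp : p.Prime := Fact.out
  have hp0 : (0 : ℝ) < p := by exact_mod_cast hpp.pos
  have hodd : Odd p := hpp.odd_of_ne_two (by omega)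
  have h1 := gen_four hodd (p / 32) (τ := 64 / p) (by positivity)
  let W' := W ∩ {v | ∀ k, ‖hat v k‖ ^ 2 ≤ 128 / p}
  have hr1 : (p : ℝ) ≤ 64 * ((p / 64 + 1 : ℕ) : ℝ) := by
    exact_mod_cast (by omega : p ≤ 64 * (p / 64 + 1))
  have hr2 : 64 * ((p / 64 + 1 : ℕ) : ℝ) ≤ p + 64 := by
    exact_mod_cast (by omega : 64 * (p / 64 + 1) ≤ p + 64)
  have hp64 : (64 : ℝ) ≤ p := by exact_mod_cast hp
  have hη : (√512 * e) ^ 2 = 512 * e ^ 2 := by rw [mul_pow, Real.sq_sqrt (by norm_num)]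
  have h2 := gen_flat W' (K := 128) (c := 1 / 512) (η := √512 * e) (e := e) (by norm_num)
    (by positivity) (by rw [hη]; nlinarith) F (fun v hv => hcov v hv.1) hd
    (fun v hv => ⟨hat_zero (hW v hv.1).1, by
      rw [sum_hat, le_div_iff₀ hp0]; linarith [(hW v hv.1).2.1], hv.2⟩) (p / 64 + 1) (by omega)
    (by rw [hη]; nlinarith [sq_nonneg e]) (by
      rcases Nat.eq_zero_or_pos F.card with h0 | h0
      · simp [h0]
      have hF : (0 : ℝ) < F.card := by exact_mod_cast h0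
      have hl : Real.log (128 / (√512 * e) ^ 2) = 2 * Real.log (1 / (2 * e)) := by
        rw [hη, ← Real.log_rpow (by positivity), Real.rpow_two]
        congr 1
        field_simp
        norm_num
      have hl0 : 0 ≤ Real.log (1 / (2 * e)) :=
        Real.log_nonneg ((one_le_div (by positivity)).2 (by linarith))
      have h2p : (2 : ℝ) ^ p ≤ Real.exp p := by
        rw [← mul_one (p : ℝ), Real.exp_nat_mul]
        exact pow_le_pow_left₀ (by norm_num) (by have := Real.add_one_le_exp (1 : ℝ); linarith) _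
      rw [hl, ← Real.exp_log hF]
      refine lt_of_le_of_lt (mul_le_mul_of_nonneg_right (mul_le_mul_of_nonneg_left h2p
        (Real.exp_pos _).le) (Real.exp_pos _).le) ?_
      rw [← Real.exp_add, ← Real.exp_add, Real.exp_lt_one_iff]
      have := mul_le_mul_of_nonneg_right hr1 hl0
      nlinarith)
  refine (h1.union h2).mono ?_ ?_
  · intro v hv
    by_cases h : ∀ k, ‖hat v k‖ ^ 2 ≤ 128 / p
    · exact Or.inr ⟨hv, h⟩
    · push Not at h
      obtain ⟨k, hk⟩ := h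
      refine Or.inl ⟨hat_zero (hW v hv).1, ⟨k, by rw [← mul_div_assoc]; norm_num; exact hk⟩,
        Finset.univ.filter fun k => 64 / (p : ℝ) < ‖hat v k‖ ^ 2, ?_, fun k hk => by simpa using hk⟩
      set S := Finset.univ.filter fun k => 64 / (p : ℝ) < ‖hat v k‖ ^ 2
      have h3 : S.card • (64 / (p : ℝ)) ≤ ∑ k ∈ S, ‖hat v k‖ ^ 2 :=
        Finset.card_nsmul_le_sum _ _ _ fun i hi => (Finset.mem_filter.1 hi).2.le
      have h4 : ∑ k ∈ S, ‖hat v k‖ ^ 2 ≤ ∑ k, ‖hat v k‖ ^ 2 :=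
        Finset.sum_le_sum_of_subset_of_nonneg (Finset.subset_univ _) fun _ _ _ => sq_nonneg _
      have h5 : ∑ k, ‖hat v k‖ ^ 2 ≤ 2 := by
        rw [sum_hat, div_le_iff₀ hp0]; exact (hW v hv).2.2
      rw [nsmul_eq_mul, ← mul_div_assoc, div_le_iff₀ hp0] at h3
      have h6 : (S.card : ℝ) * 32 ≤ p := by nlinarith
      have h7 : S.card * 32 ≤ p := by exact_mod_cast h6
      omega
  · have : 32 * ((p / 32 : ℕ) : ℝ) ≤ p := by exact_mod_cast (by omega : 32 * (p / 32) ≤ p)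
    linarith

end Pool.Agent.H462Z.MD
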