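import Pool.Agent.H462Z.MD.Rand

set_option autoImplicit false

namespace Pool.Agent.H462Z.MD

open Set Filter Topology
open scoped BigOperators

/-- bound for the number of marked places in a window of level `s` -/
def mm (s : ℕ) : ℕ := 2 ^ (s + 6)

/-- length of the windows of level `s` -/
def NN (s : ℕ) : ℕ := (s + 1) * mm s

/-- values marked at place `a` of a window of level `s` -/
def Gs (s a : ℕ) : Set ℝ :=
  {t | ∃ q : ℤ, ((q * NN s + a : ℤ) : ℝ) < NN s * (s + 1) * t ∧
    NN s * (s + 1) * t < ((q * NN s + a : ℤ) : ℝ) + 1}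

theorem mm_pos (s : ℕ) : 0 < mm s := by unfold mm; positivity

theorem lt_mm (s : ℕ) : s + 6 < mm s := Nat.lt_two_pow_self

theorem NN_pos (s : ℕ) : 0 < NN s := Nat.mul_pos (Nat.succ_pos _) (mm_pos s)

theorem isOpen_Gs (s a : ℕ) : IsOpen (Gs s a) := by
  unfold Gs
  rw [setOf_exists]
  refine isOpen_iUnion fun q => ?_
  have hc : Continuous fun t : ℝ => (NN s : ℝ) * (s + 1) * t := by fun_prop
  exact (isOpen_lt continuous_const hc).inter (isOpen_lt hc continuous_const)

theorem Gs_disj {s a b : ℕ} (ha : a < NN s) (hb : b < NN s) {t : ℝ} (h1 : t ∈ Gs s a)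
    (h2 : t ∈ Gs s b) : a = b := by
  obtain ⟨q, h1, h1'⟩ := h1
  obtain ⟨q', h2, h2'⟩ := h2
  have h3 : q * NN s + a < q' * NN s + b + 1 := by
    have := h1.trans h2'
    exact_mod_cast this
  have h4 : q' * NN s + b < q * NN s + a + 1 := by
    have := h2.trans h1'
    exact_mod_cast this
  have h5 : q * NN s + a = q' * NN s + b := by omega
  have h6 := congrArg (· % (NN s : ℤ)) h5
  simp only [Int.mul_add_emod_self_right] at h6
  rw [Int.emod_eq_of_lt (by omega) (by omega), Int.emod_eq_of_lt (by omega) (by omega)] at h6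
  exact_mod_cast h6

/-- windows with many marked places -/
def Bad (s : ℕ) : Set (ℕ → ℝ) :=
  {w | ∃ S : Finset ℕ, S ⊆ Finset.range (NN s) ∧ (∀ a ∈ S, w a ∈ Gs s a) ∧ mm s ≤ S.card}

theorem isOpen_Bad (s : ℕ) : IsOpen (Bad s) := by
  unfold Bad
  rw [setOf_exists]
  refine isOpen_iUnion fun S => isOpen_const.inter (IsOpen.inter ?_ isOpen_const)
  have : {w : ℕ → ℝ | ∀ a ∈ S, w a ∈ Gs s a} = ⋂ a ∈ S, (fun w => w a) ⁻¹' Gs s a := by
    ext w; simp
  show IsOpen {w : ℕ → ℝ | ∀ a ∈ S, w a ∈ Gs s a}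
  rw [this]
  exact isOpen_biInter_finset fun a _ => (isOpen_Gs s a).preimage (continuous_apply a)

/-- the subshift -/
def XS : Set (ℤ → ℝ) :=
  {y | (∀ n, y n ∈ Icc (0 : ℝ) 1) ∧ ∀ (s : ℕ) (j : ℤ), (fun a : ℕ => y (a + j)) ∉ Bad s}

theorem isClosed_XS : IsClosed XS := by
  have : XS = (⋂ n, (fun y : ℤ → ℝ => y n) ⁻¹' Icc (0 : ℝ) 1) ∩
      ⋂ s, ⋂ j : ℤ, (fun (y : ℤ → ℝ) (a : ℕ) => y (a + j)) ⁻¹' (Bad s)ᶜ := by
    ext y; simp [XS]
  rw [this]
  exact (isClosed_iInter fun n => isClosed_Icc.preimage (continuous_apply n)).inter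
    (isClosed_iInter fun s => isClosed_iInter fun j =>
      (isOpen_Bad s).isClosed_compl.preimage (by fun_prop))

instance : CompactSpace XS := by
  rw [← isCompact_iff_compactSpace]
  refine (isCompact_Icc (a := (0 : ℤ → ℝ)) (b := 1)).of_isClosed_subset isClosed_XS fun y hy => ?_
  exact ⟨fun n => (hy.1 n).1, fun n => (hy.1 n).2⟩

/-- the shift action -/
def act (g : ℤ) (x : XS) : XS :=
  ⟨fun n => x.1 (n + g), fun n => x.2.1 _, fun s j => by
    have := x.2.2 s (j + g)
    simpa only [add_assoc] using this⟩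

theorem act_zero (x : XS) : act 0 x = x := Subtype.ext (funext fun n => by simp [act])

theorem act_add (g h : ℤ) (x : XS) : act (g + h) x = act g (act h x) :=
  Subtype.ext (funext fun n => by simp [act, add_assoc])

theorem continuous_act (g : ℤ) : Continuous (act g) := by
  unfold act
  refine Continuous.subtype_mk (continuous_pi fun n => ?_) _
  exact (continuous_apply (n + g)).comp continuous_subtype_val

/-- the shift as a homeomorphism -/
def TT : XS ≃ₜ XS where
  toFun := act 1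
  invFun := act (-1)
  left_inv x := by rw [← act_add, neg_add_cancel, act_zero]
  right_inv x := by rw [← act_add, add_neg_cancel, act_zero]
  continuous_toFun := continuous_act 1
  continuous_invFun := continuous_act (-1)

theorem TT_iter (i : ℕ) (x : XS) : TT^[i] x = act i x := by
  induction i with
  | zero => simp [act_zero]
  | succ i ih =>
    rw [Function.iterate_succ_apply', ih]
    show act 1 (act i x) = _
    rw [← act_add]
    congr 1
    push_cast
    ring

variable {p : ℕ}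

theorem gen_level [Fact p.Prime] (s : ℕ) :
    Gen {y : ZMod p → ℝ | ∃ l : ZMod p, (fun a : ℕ => y (a + l)) ∈ Bad s} (2 * p / mm s) := by
  classical
  have hpp : p.Prime := Fact.out
  have hm : (0 : ℝ) < mm s := by exact_mod_cast mm_pos s
  have hcount : ∀ y : ZMod p → ℝ,
      (Finset.univ.filter fun l : ZMod p => (fun a : ℕ => y (a + l)) ∈ Bad s).card * mm s ≤ p := by
    intro y
    set J := Finset.univ.filter fun l : ZMod p => (fun a : ℕ => y (a + l)) ∈ Bad s
    have h1 : ∀ l : ZMod p, ∃ S : Finset ℕ, l ∈ J → S ⊆ Finset.range (NN s) ∧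
        (∀ a ∈ S, y (a + l) ∈ Gs s a) ∧ mm s ≤ S.card := by
      intro l
      by_cases h : l ∈ J
      · obtain ⟨S, hS⟩ := (Finset.mem_filter.1 h).2
        exact ⟨S, fun _ => hS⟩
      · exact ⟨∅, fun h' => absurd h' h⟩
    choose S hS using h1
    have h2 : (J.sigma S).card ≤ (Finset.univ : Finset (ZMod p)).card := by
      refine Finset.card_le_card_of_injOn (fun q => (q.2 : ZMod p) + q.1)
        (fun _ _ => Finset.mem_univ _) ?_
      rintro ⟨l, a⟩ h ⟨l', a'⟩ h' e
      simp only [Finset.coe_sigma, mem_sigma_iff, Finset.mem_coe] at h h'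
      simp only at e
      have h3 := (hS l h.1).2.1 a h.2
      have h4 := (hS l' h'.1).2.1 a' h'.2
      rw [e] at h3
      have h5 := Gs_disj (Finset.mem_range.1 ((hS l h.1).1 h.2))
        (Finset.mem_range.1 ((hS l' h'.1).1 h'.2)) h3 h4
      subst h5
      rw [add_left_cancel e]
    rw [Finset.card_univ, ZMod.card, Finset.card_sigma] at h2
    refine le_trans ?_ h2
    simpa using Finset.card_nsmul_le_sum J (fun l => (S l).card) (mm s) fun l hl => (hS l hl).2.2
  by_cases hmp : mm s ≤ p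
  · obtain ⟨β, hβ, hβc, hβr⟩ := ((isOpen_Bad s).preimage
      (f := fun (y : ZMod p → ℝ) (a : ℕ) => y a) (by fun_prop)).exists_contDiff_support_eq (n := 0)
    let Φ : (ZMod p → ℝ) → (ZMod p → ℝ) := fun y l => β fun m => y (m + l)
    have hΦ : ∀ y l, Φ y l ≠ 0 ↔ (fun a : ℕ => y (a + l)) ∈ Bad s := by
      intro y l
      show (fun m => y (m + l)) ∈ Function.support β ↔ _
      rw [hβ]
      rfl
    have h1 := lt_mm s
    have hG := (gen_supp (p := p) (p / mm s) (Nat.div_lt_self hpp.pos (by omega))).preimage (Φ := Φ)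
      (continuous_pi fun l => hβc.continuous.comp (by fun_prop)) (fun y => by
        funext l
        simp only [Φ, sg, add_assoc])
    refine hG.mono ?_ ?_
    · rintro y ⟨l, hl⟩
      refine ⟨fun l => (hβr (mem_range_self _)).1, ⟨l, (hΦ y l).2 hl⟩, _,
        (Nat.le_div_iff_mul_le (mm_pos s)).2 (hcount y), fun l hl => ?_⟩
      exact Finset.mem_filter.2 ⟨Finset.mem_univ _, (hΦ y l).1 hl⟩
    · have h2 : ((p / mm s : ℕ) : ℝ) ≤ p / mm s := Nat.cast_div_le
      have h3 : (1 : ℝ) ≤ p / mm s := by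
        rw [one_le_div hm]; exact_mod_cast hmp
      rw [mul_div_assoc]
      linarith
  · refine (Gen.empty (by positivity)).mono ?_ le_rfl
    rintro y ⟨l, hl⟩
    have h1 := hcount y
    have h2 : 0 < (Finset.univ.filter fun l : ZMod p => (fun a : ℕ => y (a + l)) ∈ Bad s).card :=
      Finset.card_pos.2 ⟨l, Finset.mem_filter.2 ⟨Finset.mem_univ _, hl⟩⟩
    exact hmp (le_trans (Nat.le_mul_of_pos_left _ h2) h1)

theorem gen_levels [Fact p.Prime] :
    Gen {y : ZMod p → ℝ | ∃ s, ∃ l : ZMod p, (fun a : ℕ => y (a + l)) ∈ Bad s} (p / 16) := by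
  have hG := Gen.biUnion (Finset.range p) _ _ fun s _ => gen_level (p := p) s
  refine hG.mono ?_ ?_
  · rintro y ⟨s, l, hl⟩
    simp only [mem_iUnion]
    refine ⟨s, ?_, l, hl⟩
    by_contra hs
    rw [Finset.mem_range, not_lt] at hs
    obtain ⟨J, _, O, h1, h2, h3⟩ := gen_level (p := p) s
    obtain ⟨j, -⟩ := h3 y ⟨l, hl⟩
    have h4 : 1 ≤ Fintype.card J := Fintype.card_pos_iff.2 ⟨j⟩
    have h5 : (1 : ℝ) ≤ 2 * p / mm s := le_trans (by exact_mod_cast h4) h2
    have hm : (0 : ℝ) < mm s := by exact_mod_cast mm_pos s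
    rw [le_div_iff₀ hm, one_mul] at h5
    have h6 : mm s ≤ 2 * p := by exact_mod_cast h5
    have h7 : s < 2 ^ s := Nat.lt_two_pow_self
    unfold mm at h6
    rw [pow_add] at h6
    omega
  · have h1 : ∀ s : ℕ, (2 * p : ℝ) / mm s = p / 32 * (1 / 2) ^ s := by
      intro s
      unfold mm
      push_cast
      rw [one_div, inv_pow]
      field_simp
      ring
    simp only [h1]
    rw [← Finset.mul_sum]
    have := sum_geometric_two_le p
    have hp : (0 : ℝ) ≤ p / 32 := by positivity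
    nlinarith

theorem gen_low [Fact p.Prime] :
    Gen {y : ZMod p → ℝ | (∃ l, y l = 1) ∧
      (Finset.univ.filter fun l => 1 / 2 < y l).card ≤ p / 8} (p / 8 + 1) := by
  have hpp : p.Prime := Fact.out
  have hG := (gen_supp (p := p) (p / 8) (Nat.div_lt_self hpp.pos (by omega))).preimage
    (Φ := fun y l => max (y l - 1 / 2) 0) (by fun_prop) (fun y => rfl)
  refine hG.mono ?_ ?_
  · rintro y ⟨⟨l, hl⟩, h⟩
    refine ⟨fun l => le_max_right _ _, ⟨l, by simp only [hl]; norm_num⟩, _, h, fun l hl => ?_⟩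
    refine Finset.mem_filter.2 ⟨Finset.mem_univ _, ?_⟩
    by_contra hc
    exact hl (max_eq_right (by linarith))
  · have h2 : ((p / 8 : ℕ) : ℝ) ≤ p / (8 : ℕ) := Nat.cast_div_le
    push_cast at h2
    linarith

theorem key_prime [Fact p.Prime] (hp : 64 ≤ p) (G : XS → ℝ) (hG : Continuous G)
    (hG0 : ∀ x, |G x - x.1 0| ≤ 1 / 8) {ε : ℝ} (hε : 0 < ε) (hε1 : ε ≤ 1 / 4)
    (F : Finset (Set XS)) (hcov : ∀ x, ∃ A ∈ F, x ∈ A)
    (hd : ∀ A ∈ F, ∀ x ∈ A, ∀ y ∈ A, ∀ i : ℕ, i < p → |G (act i x) - G (act i y)| ≤ ε) :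
    p * (1 / 2 ^ 22 * Real.log (1 / (4 * ε)) - 6) ≤ Real.log F.card := by
  classical
  have hpp : p.Prime := Fact.out
  have hp0 : (0 : ℝ) < p := by exact_mod_cast hpp.pos
  by_contra hlt
  rw [not_le] at hlt
  obtain ⟨G', hG'⟩ := ContinuousMap.exists_restrict_eq isClosed_XS ⟨G, hG⟩
  have hG'' : ∀ x : XS, G' x.1 = G x := fun x => congrArg (fun f : C(XS, ℝ) => f x) hG'
  let Φ : (ZMod p → ℝ) → (ZMod p → ℝ) := fun y l => G' fun n : ℤ => y (n + l)
  let Ψ : (ZMod p → ℝ) → (ZMod p → ℝ) := fun y l => Φ y l - (∑ i, Φ y i) / p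
  have hΦc : Continuous Φ := continuous_pi fun l => G'.continuous.comp (by fun_prop)
  have hΦe : ∀ y, Φ (sg y) = sg (Φ y) := fun y => by
    funext l
    simp only [Φ, sg, add_assoc]
  have hΨc : Continuous Ψ := by
    simp only [Ψ]; fun_prop
  have hΨe : ∀ y, Ψ (sg y) = sg (Ψ y) := fun y => by
    funext l
    simp only [Ψ, hΦe, sg, sum_sg (Φ y)]
  have hΦx : ∀ (y : ZMod p → ℝ) (h : (fun n : ℤ => y n) ∈ XS) (l : ZMod p),
      Φ y l = G (act l.val ⟨_, h⟩) := by
    intro y h l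
    rw [← hG'']
    simp [Φ, act]
  let Z : Set (ZMod p → ℝ) := {y | y ∈ Base p (p / 2) ∧ (fun n : ℤ => y n) ∈ XS ∧
    p / 8 < (Finset.univ.filter fun l => 1 / 2 < y l).card}
  let cell : Set XS → Set (ZMod p → ℝ) := fun A =>
    Ψ '' {y | ∃ h : (fun n : ℤ => y n) ∈ XS, (⟨_, h⟩ : XS) ∈ A}
  have h1 := gen_ctr hp (Ψ '' Z) (e := 2 * ε) (by positivity) (by linarith) (F.image cell)
    (by
      rintro _ ⟨y, hy, rfl⟩
      obtain ⟨A, hA, hyA⟩ := hcov ⟨_, hy.2.1⟩
      exact ⟨cell A, Finset.mem_image_of_mem _ hA, y, ⟨hy.2.1, hyA⟩, rfl⟩)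
    (by
      intro B hB
      obtain ⟨A, hA, rfl⟩ := Finset.mem_image.1 hB
      rintro _ ⟨y, ⟨hy, hyA⟩, rfl⟩ _ ⟨y', ⟨hy', hyA'⟩, rfl⟩
      have h2 : ∀ l, |Φ y l - Φ y' l| ≤ ε := by
        intro l
        rw [hΦx y hy, hΦx y' hy']
        exact hd A hA _ hyA _ hyA' _ (ZMod.val_lt l)
      have h3 : |(∑ i, Φ y i) / p - (∑ i, Φ y' i) / p| ≤ ε := by
        rw [← sub_div, ← Finset.sum_sub_distrib, abs_div, abs_of_pos hp0, div_le_iff₀ hp0]
        refine (Finset.abs_sum_le_sum_abs _ _).trans ?_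
        simpa [mul_comm] using Finset.sum_le_card_nsmul Finset.univ _ ε fun l _ => h2 l
      have h4 : ∀ l, (Ψ y l - Ψ y' l) ^ 2 ≤ (2 * ε) ^ 2 := by
        intro l
        have h5 := abs_le.1 (h2 l)
        have h6 := abs_le.1 h3
        refine sq_le_sq' ?_ ?_ <;> simp only [Ψ] <;> linarith [h5.1, h5.2, h6.1, h6.2]
      simpa [mul_comm] using Finset.sum_le_card_nsmul Finset.univ _ _ fun l _ => h4 l)
    (by
      rintro _ ⟨y, ⟨⟨hy0, -, S, hS, hyS⟩, hy, hc⟩, rfl⟩
      have h2 : ∀ l, |Φ y l - y l| ≤ 1 / 8 := by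
        intro l
        rw [hΦx y hy]
        simpa [act] using hG0 (act l.val ⟨_, hy⟩)
      have h3 : ∀ l, -(1 / 8) ≤ Φ y l ∧ Φ y l ≤ 9 / 8 := fun l => by
        have := abs_le.1 (h2 l)
        have := hy0 l
        constructor <;> linarith [this.1, this.2]
      set μ := (∑ i, Φ y i) / p with hμ
      have h4 : -(1 / 8) ≤ μ := by
        rw [hμ, le_div_iff₀ hp0]
        simpa [mul_comm] using Finset.card_nsmul_le_sum Finset.univ _ _ fun l _ => (h3 l).1
      have h5 : μ ≤ 9 / 8 := by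
        rw [hμ, div_le_iff₀ hp0]
        simpa [mul_comm] using Finset.sum_le_card_nsmul Finset.univ _ _ fun l _ => (h3 l).2
      have hΨ : ∀ l, Ψ y l = Φ y l - μ := fun l => rfl
      refine ⟨?_, ?_, ?_⟩
      · simp only [hΨ, Finset.sum_sub_distrib, Finset.sum_const, Finset.card_univ, ZMod.card,
          nsmul_eq_mul, hμ]
        field_simp
        ring
      · have key : ∀ R : Finset (ZMod p), p ≤ 8 * R.card → (∀ l ∈ R, 1 / 8 ≤ |Ψ y l|) →
            (p : ℝ) / 512 ≤ ∑ l, Ψ y l ^ 2 := by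
          intro R hR hl
          have h6 : R.card • ((1 / 8 : ℝ) ^ 2) ≤ ∑ l ∈ R, Ψ y l ^ 2 :=
            Finset.card_nsmul_le_sum _ _ _ fun l h => by
              rw [← sq_abs (Ψ y l)]
              exact pow_le_pow_left₀ (by norm_num) (hl l h) 2
          have h7 : ∑ l ∈ R, Ψ y l ^ 2 ≤ ∑ l, Ψ y l ^ 2 :=
            Finset.sum_le_sum_of_subset_of_nonneg (Finset.subset_univ _) fun _ _ _ => sq_nonneg _
          have h8 : (p : ℝ) ≤ 8 * R.card := by exact_mod_cast hR
          rw [nsmul_eq_mul] at h6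
          linarith
        rcases le_total μ (1 / 4) with h | h
        · refine key (Finset.univ.filter fun l => 1 / 2 < y l) (by omega) fun l hl => ?_
          have := (Finset.mem_filter.1 hl).2
          have := abs_le.1 (h2 l)
          rw [hΨ]
          exact le_abs.2 (Or.inl (by linarith [this.1]))
        · refine key Sᶜ (by rw [Finset.card_compl, ZMod.card]; omega) fun l hl => ?_
          have h6 : y l = 0 := by
            by_contra h7
            exact Finset.mem_compl.1 hl (hyS l h7)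
          have := abs_le.1 (h2 l)
          rw [hΨ]
          exact le_abs.2 (Or.inr (by linarith [this.2]))
      · have h6 : ∀ l, Ψ y l ^ 2 ≤ 2 := fun l => by
          have := h3 l
          rw [hΨ]
          nlinarith [this.1, this.2]
        simpa [mul_comm] using Finset.sum_le_card_nsmul Finset.univ _ _ fun l _ => h6 l)
    (by
      have h2 : 2 * (2 * ε) = 4 * ε := by ring
      rw [h2]
      refine lt_of_le_of_lt ?_ hlt
      rcases Nat.eq_zero_or_pos (F.image cell).card with h0 | h0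
      · rw [h0]
        simpa using Real.log_natCast_nonneg F.card
      · exact Real.log_le_log (by exact_mod_cast h0) (by exact_mod_cast Finset.card_image_le))
  have h2 := base_gen (p / 2) (((gen_low.union gen_levels).union (h1.preimage hΨc hΨe)).mono
    (Y' := Base p (p / 2)) (by
      intro y hy
      by_cases h3 : (Finset.univ.filter fun l => 1 / 2 < y l).card ≤ p / 8
      · exact Or.inl (Or.inl ⟨hy.2.1, h3⟩)
      by_cases h4 : (fun n : ℤ => y n) ∈ XS
      · exact Or.inr ⟨y, ⟨hy, h4, not_le.1 h3⟩, rfl⟩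
      · refine Or.inl (Or.inr ?_)
        by_contra h5
        apply h4
        refine ⟨fun n => hy.1 _, fun s j h => h5 ⟨s, j, ?_⟩⟩
        simpa using h) le_rfl)
  have h3 : (p : ℝ) ≤ 2 * ((p / 2 : ℕ) : ℝ) + 1 := by
    exact_mod_cast (by omega : p ≤ 2 * (p / 2) + 1)
  have h4 : (64 : ℝ) ≤ p := by exact_mod_cast hp
  linarith

/-- covering numbers of the orbits of any function close to the zeroth coordinate -/
theorem key (G : XS → ℝ) (hG : Continuous G) (hG0 : ∀ x, |G x - x.1 0| ≤ 1 / 8) {ε : ℝ}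
    (hε : 0 < ε) (hε1 : ε ≤ 1 / 4) {n : ℕ} (hn : 128 ≤ n) (F : Finset (Set XS))
    (hcov : ∀ x, ∃ A ∈ F, x ∈ A)
    (hd : ∀ A ∈ F, ∀ x ∈ A, ∀ y ∈ A, ∀ i : ℕ, i < n → |G (act i x) - G (act i y)| ≤ ε) :
    n * (1 / 2 ^ 23 * Real.log (1 / (4 * ε)) - 3) ≤ Real.log F.card := by
  obtain ⟨p, hp, h1, h2⟩ := Nat.exists_prime_lt_and_le_two_mul (n / 2) (by omega)
  haveI : Fact p.Prime := ⟨hp⟩
  have h3 := key_prime (p := p) (by omega) G hG hG0 hε hε1 F hcov
    fun A hA x hx y hy i hi => hd A hA x hx y hy i (by omega)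
  have h4 : (n : ℝ) ≤ 2 * p := by exact_mod_cast (by omega : n ≤ 2 * p)
  have h5 := Real.log_natCast_nonneg F.card
  rcases le_total 0 (1 / 2 ^ 23 * Real.log (1 / (4 * ε)) - 3) with h | h
  · nlinarith
  · have : (0 : ℝ) ≤ n := by positivity
    nlinarith

end Pool.Agent.H462Z.MD
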