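import Pool.Agent.H462Z.MD.Sys

set_option autoImplicit false

namespace Pool.Agent.H462Z.MD

open Set Filter Topology
open scoped BigOperators

theorem leb (α : Finset (Set XS)) (ho : ∀ U ∈ α, IsOpen U) (hc : ∀ x, ∃ U ∈ α, x ∈ U) :
    ∃ r : ℕ, ∀ x : XS, ∃ U ∈ α, ∀ y : XS,
      (∀ i : ℤ, |i| ≤ r → |y.1 i - x.1 i| < 1 / ((r : ℝ) + 1)) → y ∈ U := by
  by_contra h
  push Not at h
  choose x hx using h
  obtain ⟨a, φ, hφ, ha⟩ := CompactSpace.tendsto_subseq x
  obtain ⟨U, hU, haU⟩ := hc a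
  choose y hy hyU using fun r => hx r U hU
  have h1 : Tendsto (y ∘ φ) atTop (𝓝 a) := by
    rw [tendsto_subtype_rng, tendsto_pi_nhds] at ha ⊢
    intro i
    have h2 : Tendsto (fun n => (y (φ n)).1 i - (x (φ n)).1 i) atTop (𝓝 0) := by
      rw [tendsto_zero_iff_abs_tendsto_zero]
      refine squeeze_zero' (Eventually.of_forall fun n => abs_nonneg _) ?_
        (tendsto_one_div_add_atTop_nhds_zero_nat.comp hφ.tendsto_atTop)
      filter_upwards [hφ.tendsto_atTop.eventually_ge_atTop i.natAbs] with n hn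
      exact (hy (φ n) i (by rw [← Int.natCast_natAbs]; exact_mod_cast hn)).le
    simpa using h2.add (ha i)
  obtain ⟨n, hn⟩ := (h1.eventually ((ho U hU).mem_nhds haU)).exists
  exact hyU _ hn

theorem card_marked (s : ℕ) (b : ℤ) (w : ℕ) (x : XS) (R : Finset (Fin w))
    (hR : ∀ i ∈ R, x.1 (b + i.1) ∈ Gs s (i.1 % NN s)) : R.card ≤ mm s * (w / NN s + 1) := by
  classical
  have h := Finset.card_le_mul_card_image_of_maps_to (s := R) (t := Finset.range (w / NN s + 1))
    (f := fun i => i.1 / NN s) (fun i _ => Finset.mem_range.2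
      (Nat.lt_succ_of_le (Nat.div_le_div_right i.2.le))) (mm s) (fun q _ => ?_)
  · simpa using h
  by_contra hc
  apply x.2.2 s (b + q * NN s)
  refine ⟨(R.filter fun i => i.1 / NN s = q).image fun i => i.1 % NN s, ?_, ?_, ?_⟩
  · intro a ha
    obtain ⟨i, -, rfl⟩ := Finset.mem_image.1 ha
    exact Finset.mem_range.2 (Nat.mod_lt _ (NN_pos s))
  · intro a ha
    obtain ⟨i, hi, rfl⟩ := Finset.mem_image.1 ha
    obtain ⟨h1, h2⟩ := Finset.mem_filter.1 hi
    have h3 : ((i.1 % NN s : ℕ) : ℤ) + (b + q * NN s) = b + i.1 := by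
      have := Nat.mod_add_div i.1 (NN s)
      rw [h2] at this
      have h4 : ((i.1 % NN s : ℕ) : ℤ) + NN s * q = i.1 := by exact_mod_cast this
      linarith
    show x.1 (((i.1 % NN s : ℕ) : ℤ) + (b + q * NN s)) ∈ _
    rw [h3]
    exact hR i h1
  · rw [Finset.card_image_of_injOn]
    · exact (not_le.1 hc).le
    · intro i hi j hj e
      have h1 := (Finset.mem_filter.1 hi).2
      have h2 := (Finset.mem_filter.1 hj).2
      have h3 := Nat.mod_add_div i.1 (NN s)
      have h4 := Nat.mod_add_div j.1 (NN s)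
      simp only at e
      rw [h1, e] at h3
      rw [h2] at h4
      exact Fin.ext (h3.symm.trans h4)

theorem cover_level (s : ℕ) (b : ℤ) (w : ℕ) : ∃ β : Finset (Set XS), (∀ V ∈ β, IsOpen V) ∧
    (∀ x, ∃ V ∈ β, x ∈ V) ∧
    (∀ V ∈ β, ∀ x ∈ V, ∀ y ∈ V, ∀ i : ℕ, i < w → |y.1 (b + i) - x.1 (b + i)| < 1 / ((s : ℝ) + 1)) ∧
    ∀ x, ∀ t ⊆ β, (∀ V ∈ t, x ∈ V) → t.card ≤ mm s * (w / NN s + 1) + 1 := by
  classical
  set L := mm s * (w / NN s + 1)
  have hN : (0 : ℝ) < NN s := by exact_mod_cast NN_pos s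
  let θ : Fin (L + 1) → ℝ := fun k => 1 / (2 + (k : ℕ))
  have hpos : ∀ k : Fin (L + 1), (0 : ℝ) < 2 + (k : ℕ) := fun k => by positivity
  have hθ0 : ∀ k, 0 < θ k := fun k => one_div_pos.2 (hpos k)
  have hθ1 : ∀ k, θ k < 1 := fun k => by
    simp only [θ]
    rw [div_lt_one (hpos k)]
    have : (0 : ℝ) ≤ (k : ℕ) := by positivity
    linarith
  have hθ : Function.Injective θ := by
    intro a b hab
    simp only [θ, one_div, inv_inj, add_right_inj, Nat.cast_inj] at hab
    exact Fin.ext hab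
  let u : Fin (L + 1) → Fin w → XS → ℝ := fun k i x =>
    (NN s * (s + 1) * x.1 (b + i.1) - ((i.1 % NN s : ℕ) : ℝ) - θ k) / NN s
  have huc : ∀ k i, Continuous (u k i) := fun k i =>
    (((continuous_const.mul ((continuous_apply _).comp continuous_subtype_val)).sub
      continuous_const).sub continuous_const).div_const _
  let V : Fin (L + 1) × (Fin w → ℤ) → Set XS := fun q =>
    {x | ∀ i, (q.2 i : ℝ) < u q.1 i x ∧ u q.1 i x < q.2 i + 1}
  refine ⟨(Finset.univ ×ˢ Fintype.piFinset fun _ => Finset.Icc (-1 : ℤ) (s + 1)).image V,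
    ?_, ?_, ?_, ?_⟩
  · intro A hA
    obtain ⟨q, -, rfl⟩ := Finset.mem_image.1 hA
    simp only [V, setOf_forall]
    exact isOpen_iInter_of_finite fun i =>
      (isOpen_lt continuous_const (huc _ i)).inter (isOpen_lt (huc _ i) continuous_const)
  · intro x
    let R := Finset.univ.filter fun i : Fin w => x.1 (b + i.1) ∈ Gs s (i.1 % NN s)
    have hR : R.card ≤ L := card_marked s b w x R fun i hi => (Finset.mem_filter.1 hi).2
    obtain ⟨k, hk⟩ := exists_missed
      (fun i : Fin w => if i ∈ R then Int.fract (NN s * (s + 1) * x.1 (b + i.1)) else 0) L θ hθ R hR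
      (fun i k h => by
        by_contra hc
        simp only [if_neg hc] at h
        exact (hθ0 k).ne h)
    refine ⟨V (k, fun i => ⌊u k i x⌋), Finset.mem_image_of_mem _ ?_, fun i => ⟨?_, ?_⟩⟩
    · simp only [Finset.mem_product, Finset.mem_univ, true_and, Fintype.mem_piFinset,
        Finset.mem_Icc]
      intro i
      have h1 := x.2.1 (b + i.1)
      have h2 : ((i.1 % NN s : ℕ) : ℝ) + 1 ≤ NN s := by
        exact_mod_cast Nat.mod_lt _ (NN_pos s)
      have h3 : (0 : ℝ) ≤ ((i.1 % NN s : ℕ) : ℝ) := by positivity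
      have h4 : 0 ≤ (NN s : ℝ) * (s + 1) * x.1 (b + i.1) := mul_nonneg (by positivity) h1.1
      have h5 : (NN s : ℝ) * (s + 1) * x.1 (b + i.1) ≤ NN s * (s + 1) :=
        mul_le_of_le_one_right (by positivity) h1.2
      constructor
      · rw [Int.le_floor]
        simp only [u]
        rw [le_div_iff₀ hN]
        push_cast
        linarith [hθ1 k]
      · rw [← Int.lt_add_one_iff, Int.floor_lt]
        simp only [u]
        rw [div_lt_iff₀ hN]
        push_cast
        linarith [hθ0 k]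
    · refine lt_of_le_of_ne (Int.floor_le _) fun h => ?_
      simp only at h
      generalize ⌊u k i x⌋ = q at h
      have h1 : (NN s : ℝ) * (s + 1) * x.1 (b + i.1) =
          ((q * NN s + (i.1 % NN s : ℕ) : ℤ) : ℝ) + θ k := by
        simp only [u] at h
        rw [eq_div_iff hN.ne'] at h
        rw [Int.cast_add, Int.cast_mul, Int.cast_natCast, Int.cast_natCast]
        linarith
      have h2 : i ∈ R := Finset.mem_filter.2 ⟨Finset.mem_univ _, q, by rw [h1]; linarith [hθ0 k],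
        by rw [h1]; linarith [hθ1 k]⟩
      apply hk i
      simp only [if_pos h2]
      rw [h1, Int.fract_intCast_add, Int.fract_eq_self.2 ⟨(hθ0 k).le, hθ1 k⟩]
    · exact Int.lt_floor_add_one _
  · intro A hA x hx y hy i hi
    obtain ⟨q, -, rfl⟩ := Finset.mem_image.1 hA
    obtain ⟨h1, h2⟩ := hx ⟨i, hi⟩
    obtain ⟨h3, h4⟩ := hy ⟨i, hi⟩
    have h5 : u q.1 ⟨i, hi⟩ y - u q.1 ⟨i, hi⟩ x = (s + 1) * (y.1 (b + i) - x.1 (b + i)) := by
      simp only [u]
      field_simp
      ring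
    have hs : (0 : ℝ) < s + 1 := by positivity
    rw [lt_div_iff₀ hs, mul_comm, ← abs_of_pos hs, ← abs_mul, ← h5, abs_lt]
    constructor <;> linarith
  · intro x t ht hx
    have h1 : ∀ A : Set XS, ∃ q, A ∈ t → V q = A := by
      intro A
      by_cases h : A ∈ t
      · obtain ⟨q, -, hq⟩ := Finset.mem_image.1 (ht h)
        exact ⟨q, fun _ => hq⟩
      · exact ⟨(0, 0), fun h' => absurd h' h⟩
    choose q hq using h1
    have h2 : t.card ≤ (Finset.univ : Finset (Fin (L + 1))).card := by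
      refine Finset.card_le_card_of_injOn (fun A => (q A).1) (fun _ _ => Finset.mem_univ _) ?_
      intro A hA B hB e
      have hA' := hx A hA
      have hB' := hx B hB
      rw [← hq A hA] at hA' ⊢
      rw [← hq B hB] at hB' ⊢
      congr 1
      refine Prod.ext e (funext fun i => ?_)
      obtain ⟨h3, h4⟩ := hA' i
      obtain ⟨h5, h6⟩ := hB' i
      simp only at e
      rw [e] at h3 h4
      have h7 : (q A).2 i < (q B).2 i + 1 := by exact_mod_cast h3.trans h6
      have h8 : (q B).2 i < (q A).2 i + 1 := by exact_mod_cast h5.trans h4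
      omega
    simpa using h2

/-- the subshift has mean dimension zero -/
theorem zero_cover (α : Finset (Set XS)) (ho : ∀ U ∈ α, IsOpen U) (hc : ∀ x, ∃ U ∈ α, x ∈ U)
    {δ : ℝ} (hδ : 0 < δ) : ∀ᶠ n : ℕ in atTop, ∃ β : Finset (Set XS), (∀ V ∈ β, IsOpen V) ∧
      (∀ x, ∃ V ∈ β, x ∈ V) ∧ (∀ V ∈ β, ∀ i : ℕ, i < n → ∃ U ∈ α, ∀ x ∈ V, act i x ∈ U) ∧
      ∃ k : ℕ, (k : ℝ) ≤ δ * n ∧ ∀ x, ∀ t ⊆ β, (∀ V ∈ t, x ∈ V) → t.card ≤ k + 1 := by
  classical
  obtain ⟨r, hr⟩ := leb α ho hc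
  obtain ⟨s0, hs0⟩ := exists_nat_one_div_lt (half_pos hδ)
  let s := max r s0
  have hs1 : 1 / ((s : ℝ) + 1) ≤ 1 / ((r : ℝ) + 1) := Nat.one_div_le_one_div (le_max_left _ _)
  have hs2 : 1 / ((s : ℝ) + 1) ≤ δ / 2 := (Nat.one_div_le_one_div (le_max_right _ _)).trans hs0.le
  filter_upwards [tendsto_natCast_atTop_atTop (R := ℝ).eventually_ge_atTop
    ((δ * r + mm s) / (δ / 2))] with n hn
  obtain ⟨β, h1, h2, h3, h4⟩ := cover_level s (-r) (n + 2 * r)
  refine ⟨β.filter Set.Nonempty, fun V hV => h1 V (Finset.mem_filter.1 hV).1, fun x => ?_,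
    fun V hV i hi => ?_, mm s * ((n + 2 * r) / NN s + 1), ?_,
    fun x t ht => h4 x t (ht.trans (Finset.filter_subset _ _))⟩
  · obtain ⟨V, hV, hx⟩ := h2 x
    exact ⟨V, Finset.mem_filter.2 ⟨hV, x, hx⟩, hx⟩
  · obtain ⟨hV, x, hx⟩ := Finset.mem_filter.1 hV
    obtain ⟨U, hU, hxU⟩ := hr (act i x)
    refine ⟨U, hU, fun y hy => hxU _ fun j hj => lt_of_lt_of_le ?_ hs1⟩
    have h5 := abs_le.1 hj
    have h6 := h3 V hV x hx y hy (j + i + r).toNat (by omega)
    have h7 : (-r : ℤ) + ((j + i + r).toNat : ℕ) = j + i := by omega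
    rw [h7] at h6
    exact h6
  · have hm : (0 : ℝ) < mm s := by exact_mod_cast mm_pos s
    have h5 : (((n + 2 * r) / NN s : ℕ) : ℝ) ≤ ((n + 2 * r : ℕ) : ℝ) / NN s := Nat.cast_div_le
    have h6 : (mm s : ℝ) * (((n + 2 * r : ℕ) : ℝ) / NN s) = (n + 2 * r) * (1 / ((s : ℝ) + 1)) := by
      unfold NN
      push_cast
      field_simp
    have h7 : ((n : ℝ) + 2 * r) * (1 / ((s : ℝ) + 1)) ≤ (n + 2 * r) * (δ / 2) :=
      mul_le_mul_of_nonneg_left hs2 (by positivity)
    rw [div_le_iff₀ (half_pos hδ)] at hn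
    have h8 := mul_le_mul_of_nonneg_left h5 hm.le
    rw [Nat.cast_mul, Nat.cast_add, Nat.cast_one]
    nlinarith

end Pool.Agent.H462Z.MD
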